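import Pool.Agent.TH300.HS.Gam

/-!
The balance of a weighted sum of squares of the Fourier coefficients.
-/

set_option autoImplicit false

open MeasureTheory Set Filter Topology
open scoped ContDiff
open H459R3.NS Pool.Agent.TH305.FB

namespace Pool.Agent.TH300.HS

section

variable {ν T : ℝ} {u : ℝ → V → V} {p : ℝ → V → ℝ} {w : K3 → ℝ}

theorem rap_w (h0 : ∀ k, 0 ≤ w k) (hw : ∀ k, w k ≤ (N k : ℝ) ^ 4) {a : K3 → ℂ} (h : Rap a) :
    Rap fun k => (w k : ℂ) * a k := by
  intro n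
  refine Summable.of_nonneg_of_le (fun k => by positivity) (fun k => ?_) (h (n + 4))
  rw [norm_mul, Complex.norm_real, Real.norm_eq_abs, abs_of_nonneg (h0 k)]
  calc (N k : ℝ) ^ n * (w k * ‖a k‖) ≤ (N k : ℝ) ^ n * ((N k : ℝ) ^ 4 * ‖a k‖) := by
        gcongr
        exact hw k
    _ = (N k : ℝ) ^ (n + 4) * ‖a k‖ := by ring

/-- The weighted convection form. -/
noncomputable def CW (w : K3 → ℝ) (U : Fin 3 → K3 → ℂ) : ℂ :=
  ∑ i, ∑ j, Tri (U j) (D j (U i)) (fun k => (w k : ℂ) * U i k)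

/-- The weighted sum of squares. -/
noncomputable def WF (w : K3 → ℝ) (U : Fin 3 → K3 → ℂ) : ℝ := ∑' k, w k * e2 U k

variable (h0 : ∀ k, 0 ≤ w k) (hw : ∀ k, w k ≤ (N k : ℝ) ^ 4) (hwn : ∀ k, w (-k) = w k)

include h0 hw hwn in
/-- The convection term. -/
theorem hasSum_convW (h : IsSol ν T u p) {t : ℝ} (ht : t ∈ Ico 0 T) (i : Fin 3) :
    HasSum (fun k => ((w k : ℝ) : ℂ) *
      ((starRingEnd ℂ) (uh u t i k) * fr (conv (fun i y => u t y i) i) k))
      (∑ j, Tri (uh u t j) (D j (uh u t i)) (fun k => (w k : ℂ) * uh u t i k)) := by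
  have hR := rap_uh h ht
  have hc : Rap (fun k => (w k : ℂ) * uh u t i k) := rap_w h0 hw (hR i)
  have hsp : ∀ i, SP (fun y => u t y i) := fun i => h.sp ht i
  have hcs := hc.summable
  set c : K3 → ℂ := fun k => (w k : ℂ) * uh u t i k with hcdef
  have hcont : Continuous fun x : V => ((conv (fun i y => u t y i) i x : ℝ) : ℂ) :=
    (contDiff_ofReal (sp_conv hsp i).smooth).continuous
  have h1 := integral_S_mul hcs hcont
  have e1 : ∀ k, c k * ∫ x in cube, ee k x * ((conv (fun i y => u t y i) i x : ℝ) : ℂ)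
      = c k * fr (conv (fun i y => u t y i) i) (-k) := by
    intro k
    unfold fr fc
    rw [neg_neg]
  simp_rw [e1] at h1
  have h2 := (Equiv.neg K3).hasSum_iff.2 h1
  have e2' : ((fun k => c k * fr (conv (fun i y => u t y i) i) (-k)) ∘ (Equiv.neg K3))
      = fun k => ((w k : ℝ) : ℂ) *
      ((starRingEnd ℂ) (uh u t i k) * fr (conv (fun i y => u t y i) i) k) := by
    funext k
    simp only [Function.comp_apply, Equiv.neg_apply, neg_neg, hcdef]
    rw [hwn, uh, fr_conj]
    ring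
  rw [e2'] at h2
  have e3 : ∑ j, Tri (uh u t j) (D j (uh u t i)) c
      = ∫ x in cube, S c x * ((conv (fun i y => u t y i) i x : ℝ) : ℂ) := by
    have e4 : ∀ j, Tri (uh u t j) (D j (uh u t i)) c
        = ∫ x in cube, S c x * ((u t x j * pd j (fun y => u t y i) x : ℝ) : ℂ) := by
      intro j
      rw [tri_eq (hR j).summable ((hR i).D j).summable hcs]
      congr 1
      funext x
      have a1 : S (uh u t j) x = ((u t x j : ℝ) : ℂ) := S_fr (hsp j) x
      have a2 : S (D j (uh u t i)) x = ((pd j (fun y => u t y i) x : ℝ) : ℂ) := by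
        rw [uh, ← fr_pd (hsp i)]
        exact S_fr ((hsp i).pd j) x
      rw [a1, a2]
      push_cast
      ring
    simp_rw [e4]
    rw [← integral_finsetSum]
    · congr 1
      funext x
      rw [← Finset.mul_sum]
      unfold conv
      push_cast
      rfl
    · intro j _
      exact integrableOn_cube ((S_continuous hcs).mul
        (contDiff_ofReal ((hsp j).mul ((hsp i).pd j)).smooth).continuous)
  rw [e3]
  exact h2

include h0 hw hwn in
theorem hasSum_CW (h : IsSol ν T u p) {t : ℝ} (ht : t ∈ Ico 0 T) :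
    HasSum (fun k => ((w k : ℝ) : ℂ) *
      ∑ i, (starRingEnd ℂ) (uh u t i k) * fr (conv (fun i y => u t y i) i) k)
      (CW w (uh u t)) := by
  unfold CW
  have h1 := hasSum_sum (s := Finset.univ) fun i _ => hasSum_convW h0 hw hwn h ht i
  simp_rw [Finset.mul_sum]
  exact h1

include h0 hw in
theorem summable_Wi (h : IsSol ν T u p) {t : ℝ} (ht : t ∈ Ico 0 T) (i : Fin 3) :
    Summable fun k => w k * ‖uh u t i k‖ ^ 2 := by
  have hR := rap_uh h ht i
  have hM : ∀ k, ‖uh u t i k‖ ≤ ∑' m, ‖uh u t i m‖ := fun k =>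
    hR.summable.norm.le_tsum k fun _ _ => norm_nonneg _
  refine Summable.of_nonneg_of_le (fun k => mul_nonneg (h0 k) (sq_nonneg _)) (fun k => ?_)
    ((hR 4).mul_left (∑' m, ‖uh u t i m‖))
  have h1 := hw k
  have h2 := hM k
  have h3 := h0 k
  calc w k * ‖uh u t i k‖ ^ 2 ≤ (N k : ℝ) ^ 4 * ((∑' m, ‖uh u t i m‖) * ‖uh u t i k‖) := by
        rw [sq]
        gcongr
    _ = _ := by ring

include h0 hw in
theorem WF_eq (h : IsSol ν T u p) {t : ℝ} (ht : t ∈ Ico 0 T) :
    WF w (uh u t) = ∑ i, ∑' k, w k * ‖uh u t i k‖ ^ 2 := by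
  unfold WF TH305.FB.e2
  rw [← Summable.tsum_finsetSum fun i _ => summable_Wi h0 hw h ht i]
  exact tsum_congr fun k => Finset.mul_sum _ _ _

include h0 hw in
theorem WF_continuousOn (h : IsSol ν T u p) :
    ContinuousOn (fun t => WF w (uh u t)) (Ico 0 T) := by
  have h1 : ContinuousOn (fun t => ∑ i, ∑' k, w k * ‖fr (fun y => u t y i) k‖ ^ 2)
      (Ico 0 T) := by
    refine continuousOn_finsetSum _ fun i _ => ?_
    exact continuousOn_tsum_fr (f := fun t y => u t y i) (h.smooth_c i)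
      (fun t ht => (h.sp ht i).per) h0 hw
  exact h1.congr fun t ht => WF_eq h0 hw h ht

theorem summable_nk (hw : ∀ k, w k ≤ (N k : ℝ) ^ 4) (h0 : ∀ k, 0 ≤ w k) {U : Fin 3 → K3 → ℂ}
    (hU : ∀ i, Rap (U i)) : Summable fun k => nk2 k * (w k * e2 U k) := by
  have h1 : ∀ i, Summable fun k => nk2 k * (w k * ‖U i k‖ ^ 2) := by
    intro i
    have hM : ∀ k, ‖U i k‖ ≤ ∑' m, ‖U i m‖ := fun k =>
      (hU i).summable.norm.le_tsum k fun _ _ => norm_nonneg _
    refine Summable.of_nonneg_of_le (fun k => mul_nonneg (nk2_nonneg k)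
      (mul_nonneg (h0 k) (sq_nonneg _))) (fun k => ?_)
      (((hU i) 6).mul_left (3 * ∑' m, ‖U i m‖))
    have h2 := nk2_le k
    have h3 := hM k
    have h4 := hw k
    have h5 := h0 k
    calc nk2 k * (w k * ‖U i k‖ ^ 2)
        ≤ (3 * (N k : ℝ) ^ 2) * ((N k : ℝ) ^ 4 * ((∑' m, ‖U i m‖) * ‖U i k‖)) := by
          rw [sq ‖U i k‖]
          gcongr
      _ = _ := by ring
  have h2 := summable_sum (s := Finset.univ) fun i _ => h1 i
  refine h2.congr fun k => ?_
  unfold TH305.FB.e2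
  rw [Finset.mul_sum, Finset.mul_sum]

include h0 hw hwn in
theorem WF_hasDerivAt (h : IsSol ν T u p) {t : ℝ} (ht : t ∈ Ioo 0 T) :
    HasDerivAt (fun s => WF w (uh u s))
      (-(8 * Real.pi ^ 2 * ν * ∑' k, nk2 k * (w k * e2 (uh u t) k))
        - 2 * (CW w (uh u t)).re) t := by
  have hI : t ∈ Ico 0 T := ⟨ht.1.le, ht.2⟩
  have h1 : HasDerivAt (fun s => ∑ i, ∑' k, w k * ‖fr (fun y => u s y i) k‖ ^ 2)
      (∑ i, ∑' k, w k * (2 * ((starRingEnd ℂ) (uh u t i k)
        * fr (dt (fun s y => u s y i) t) k).re)) t :=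
    HasDerivAt.fun_sum fun i _ => hasDerivAt_tsum_fr (f := fun s y => u s y i) (h.smooth_c i)
      (fun t ht => (h.sp ht i).per) h0 hw ht
  have h2 : HasDerivAt (fun s => WF w (uh u s))
      (∑ i, ∑' k, w k * (2 * ((starRingEnd ℂ) (uh u t i k)
        * fr (dt (fun s y => u s y i) t) k).re)) t := by
    refine h1.congr_of_eventuallyEq ?_
    filter_upwards [Ioo_mem_nhds ht.1 ht.2] with s hs
    exact WF_eq h0 hw h ⟨hs.1.le, hs.2⟩
  refine h2.congr_deriv ?_
  have hR := rap_uh h hI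
  have hsum : ∀ i, Summable fun k => w k * (2 * ((starRingEnd ℂ) (uh u t i k)
        * fr (dt (fun s y => u s y i) t) k).re) := by
    intro i
    obtain ⟨C, hC⟩ := norm_fr_le (h.sp_dt ht i)
    have hC0 : 0 ≤ C := (norm_nonneg _).trans (hC 0)
    refine Summable.of_norm_bounded (((hR i) 4).mul_left (2 * C)) fun k => ?_
    have h3 : |((starRingEnd ℂ) (uh u t i k) * fr (dt (fun s y => u s y i) t) k).re|
        ≤ ‖uh u t i k‖ * C := by
      refine (Complex.abs_re_le_norm _).trans ?_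
      rw [norm_mul, RCLike.norm_conj]
      exact mul_le_mul_of_nonneg_left (hC k) (norm_nonneg _)
    rw [Real.norm_eq_abs, abs_mul, abs_mul, abs_of_nonneg (h0 k), abs_two]
    calc w k * (2 * |((starRingEnd ℂ) (uh u t i k)
          * fr (dt (fun s y => u s y i) t) k).re|)
        ≤ (N k : ℝ) ^ 4 * (2 * (‖uh u t i k‖ * C)) :=
          mul_le_mul (hw k) (by linarith) (by positivity) (by positivity)
      _ = _ := by ring
  rw [← Summable.tsum_finsetSum fun i _ => hsum i]
  simp_rw [← Finset.mul_sum]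
  have hre := Complex.hasSum_re (hasSum_CW h0 hw hwn h hI)
  have hA : Summable fun k => nk2 k * (w k * e2 (uh u t) k) := summable_nk hw h0 hR
  have h5 := (hA.hasSum.mul_left (-(8 * Real.pi ^ 2 * ν))).sub (hre.mul_left 2)
  have h6 : (fun k => -(8 * Real.pi ^ 2 * ν) * (nk2 k * (w k * e2 (uh u t) k))
      - 2 * (((w k : ℝ) : ℂ) *
      ∑ i, (starRingEnd ℂ) (uh u t i k) * fr (conv (fun i y => u t y i) i) k).re)
      = fun k => w k * ∑ i, (2 * ((starRingEnd ℂ) (uh u t i k)
        * fr (dt (fun s y => u s y i) t) k).re) := by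
    funext k
    rw [re_sum h ht k, Complex.re_ofReal_mul]
    ring
  rw [h6] at h5
  have h7 : ∀ k, w k * ∑ i, (2 * ((starRingEnd ℂ) (uh u t i k)
        * fr (dt (fun s y => u s y i) t) k).re)
      = w k * (2 * ∑ i, ((starRingEnd ℂ) (uh u t i k)
        * fr (dt (fun s y => u s y i) t) k).re) := fun k => by rw [← Finset.mul_sum]
  simp_rw [h7] at h5
  rw [h5.tsum_eq]
  ring

end

end Pool.Agent.TH300.HS
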