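import Pool.Agent.TH300.HS.Dec

/-!
The bound of the difference of the productions.
-/

set_option autoImplicit false

open MeasureTheory Set Filter Topology
open H459R3.NS Pool.Agent.TH305.FB

namespace Pool.Agent.TH300.HS

/-- The norms of order one half and three halves are under control. -/
structure Bd (X Y : ℝ) (f : K3 → ℂ) : Prop where
  rap : Rap f
  half : Hs (1 / 2) f ≤ X
  three : Hs (3 / 2) f ≤ Y

section

variable {X Y s B G : ℝ} {f g w : K3 → ℂ}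

theorem Bd.X0 (h : Bd X Y f) : 0 ≤ X := (Hs_nonneg _ _).trans h.half
theorem Bd.Y0 (h : Bd X Y f) : 0 ≤ Y := (Hs_nonneg _ _).trans h.three

theorem tri_mb (hM : Mb s B G w) (hB : 0 ≤ B) (hG : 0 ≤ G) {P Q : ℝ} {x y : K3 → ℂ}
    (hx : Rap x) (hy : Rap y) (hx0 : x 0 = 0) (hy0 : y 0 = 0)
    (h1 : Hs s x ≤ 2 * Real.pi * P) (h2 : Hs s y ≤ 2 * Real.pi * P)
    (h3 : Hs 0 x ≤ 2 * Real.pi * Q) (h4 : Hs 0 y ≤ 2 * Real.pi * Q) :
    ‖Tri x y w‖ ≤ 4 * Real.pi ^ 2 * (B * P ^ 2 + G * Q ^ 2) := by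
  have hp := Real.pi_pos
  have n1 := Hs_nonneg s x
  have n2 := Hs_nonneg s y
  have n3 := Hs_nonneg 0 x
  have n4 := Hs_nonneg 0 y
  have m1 : Hs s x * Hs s y ≤ (2 * Real.pi * P) * (2 * Real.pi * P) :=
    mul_le_mul h1 h2 n2 (n1.trans h1)
  have m2 : Hs 0 x * Hs 0 y ≤ (2 * Real.pi * Q) * (2 * Real.pi * Q) :=
    mul_le_mul h3 h4 n4 (n3.trans h3)
  refine (hM x y hx hy hx0 hy0).trans ?_
  have m3 := mul_le_mul_of_nonneg_left m1 hB
  have m4 := mul_le_mul_of_nonneg_left m2 hG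
  linarith

theorem Bd.Lam_s (h : Bd X Y f) (hs0 : 0 ≤ s) (hs1 : s ≤ 1 / 2) :
    Hs s (Lam f) ≤ 2 * Real.pi * (X ^ (1 / 2 - s) * Y ^ (1 / 2 + s)) := by
  rw [Hs_Lam hs0]
  have h1 := Hs_interp h.rap (σ := 1 + s) (by linarith) (by linarith) h.half h.three
  have e1 : 3 / 2 - (1 + s) = 1 / 2 - s := by ring
  have e2 : 1 + s - 1 / 2 = 1 / 2 + s := by ring
  rw [e1, e2] at h1
  refine h1.trans ?_
  have n1 : 0 ≤ X ^ (1 / 2 - s) * Y ^ (1 / 2 + s) :=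
    mul_nonneg (Real.rpow_nonneg h.X0 _) (Real.rpow_nonneg h.Y0 _)
  have hp : 1 ≤ 2 * Real.pi := by have := Real.pi_gt_three; linarith
  nlinarith

theorem Bd.D_s (h : Bd X Y f) (hs0 : 0 ≤ s) (hs1 : s ≤ 1 / 2) (j : Fin 3) :
    Hs s (D j f) ≤ 2 * Real.pi * (X ^ (1 / 2 - s) * Y ^ (1 / 2 + s)) := by
  refine (Hs_D h.rap hs0 (by linarith) j).trans ?_
  have h1 := Hs_interp h.rap (σ := 1 + s) (by linarith) (by linarith) h.half h.three
  have e1 : 3 / 2 - (1 + s) = 1 / 2 - s := by ring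
  have e2 : 1 + s - 1 / 2 = 1 / 2 + s := by ring
  rw [e1, e2] at h1
  have := Real.pi_pos
  gcongr

theorem PQ (hX : 0 ≤ X) (hY : 0 ≤ Y) (hs0 : 0 ≤ s) (hs1 : s ≤ 1 / 2) :
    (X ^ (1 / 2 - s) * Y ^ (1 / 2 + s)) ^ 2 = X ^ (1 - 2 * s) * Y ^ (1 + 2 * s) := by
  rw [mul_pow, ← Real.rpow_natCast (X ^ (1 / 2 - s)), ← Real.rpow_natCast (Y ^ (1 / 2 + s)),
    ← Real.rpow_mul hX, ← Real.rpow_mul hY]
  congr 2 <;> (push_cast; ring)

theorem PQ0 (hX : 0 ≤ X) (hY : 0 ≤ Y) :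
    (X ^ (1 / 2 - (0 : ℝ)) * Y ^ (1 / 2 + (0 : ℝ))) ^ 2 = X * Y := by
  rw [PQ hX hY le_rfl (by norm_num)]
  norm_num

/-- Two derivatives and a multiplier. -/
theorem tri_two (hs0 : 0 ≤ s) (hs1 : s ≤ 1 / 2) (hM : Mb s B G w) (hB : 0 ≤ B) (hG : 0 ≤ G)
    (hf : Bd X Y f) (hg : Bd X Y g) (j : Fin 3) :
    ‖Tri (D j f) (Lam g) w‖
      ≤ 4 * Real.pi ^ 2 * (B * (X ^ (1 - 2 * s) * Y ^ (1 + 2 * s)) + G * (X * Y)) := by
  have h := tri_mb hM hB hG (hf.rap.D j) (rap_Lam hg.rap) (D_zero j f) (Lam_zero g)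
    (hf.D_s hs0 hs1 j) (hg.Lam_s hs0 hs1) (hf.D_s le_rfl (by norm_num) j)
    (hg.Lam_s le_rfl (by norm_num))
  rwa [PQ hf.X0 hf.Y0 hs0 hs1, PQ0 hf.X0 hf.Y0] at h

end

/-- The bound of the form `Gam`. -/
theorem gam_two {s : ℝ} (hs0 : 0 ≤ s) (hs1 : s < 1 / 2) : ∃ C : ℝ, 0 ≤ C ∧
    ∀ (f g w : K3 → ℂ) (B G X Y : ℝ) (j : Fin 3), Rap w → 0 ≤ B → 0 ≤ G → Mb s B G w →
      Bd X Y f → Bd X Y g → ‖Gam f (D j g) w‖
        ≤ C * (B * (X ^ (1 - 2 * s) * Y ^ (1 + 2 * s)) + G * (X * Y)) := by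
  obtain ⟨C, hC0, hC⟩ := gam_bound (s := s) (α := 1 / 2 + s) (β := 1 / 2 - s) hs0 (by linarith)
    (by linarith) (by linarith) (by ring)
  refine ⟨C * (2 * Real.pi), by positivity, fun f g w B G X Y j hw hB hG hM hf hg => ?_⟩
  have hX := hf.X0
  have hY := hf.Y0
  refine (hC f (D j g) w B G hf.rap (hg.rap.D j) hw hB hG hM).trans ?_
  have e1 : s + (1 / 2 + s) = 1 / 2 + 2 * s := by ring
  have e2 : s + (1 / 2 - s) = 1 / 2 := by ring
  rw [e1, e2]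
  have h1 := Hs_interp hf.rap (σ := 1 / 2 + 2 * s) (by linarith) (by linarith) hf.half hf.three
  have e3 : 3 / 2 - (1 / 2 + 2 * s) = 1 - 2 * s := by ring
  have e4 : 1 / 2 + 2 * s - 1 / 2 = 2 * s := by ring
  rw [e3, e4] at h1
  have h2 : Hs (1 / 2) (D j g) ≤ 2 * Real.pi * Y := by
    refine (Hs_D hg.rap (by norm_num) (by norm_num) j).trans ?_
    have : (1 : ℝ) + 1 / 2 = 3 / 2 := by norm_num
    rw [this]
    have := hg.three
    have := Real.pi_pos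
    gcongr
  have n1 := Hs_nonneg (1 / 2) (D j g)
  have n2 := Hs_nonneg (1 / 2 + 2 * s) f
  have n3 := Hs_nonneg (1 / 2) f
  have m1 : Hs (1 / 2 + 2 * s) f * Hs (1 / 2) (D j g)
      ≤ (X ^ (1 - 2 * s) * Y ^ (2 * s)) * (2 * Real.pi * Y) := mul_le_mul h1 h2 n1 (n2.trans h1)
  have m2 : Hs (1 / 2) f * Hs (1 / 2) (D j g) ≤ X * (2 * Real.pi * Y) :=
    mul_le_mul hf.half h2 n1 hX
  have e5 : Y ^ (1 + 2 * s) = Y ^ (2 * s) * Y := by
    rcases hY.eq_or_lt with h | h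
    · rw [← h, Real.zero_rpow (by linarith), mul_zero]
    · rw [add_comm, Real.rpow_add h, Real.rpow_one]
  rw [e5]
  calc C * (B * (Hs (1 / 2 + 2 * s) f * Hs (1 / 2) (D j g)) + G * (Hs (1 / 2) f
        * Hs (1 / 2) (D j g)))
      ≤ C * (B * ((X ^ (1 - 2 * s) * Y ^ (2 * s)) * (2 * Real.pi * Y))
        + G * (X * (2 * Real.pi * Y))) := by gcongr
    _ = _ := by ring

variable {U V W : Fin 3 → K3 → ℂ}

/-- **The bound of the difference of the productions.** -/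
theorem nn_bound {s : ℝ} (hs0 : 0 ≤ s) (hs1 : s < 1 / 2) : ∃ C : ℝ, 0 ≤ C ∧
    ∀ (U V W : Fin 3 → K3 → ℂ) (B G X Y : ℝ), (∀ k, ∑ j, (k j : ℂ) * V j k = 0) →
      (U = fun i => V i + W i) → 0 ≤ B → 0 ≤ G → (∀ i, Mb s B G (W i)) →
      (∀ i, Bd X Y (U i)) → (∀ i, Bd X Y (V i)) → (∀ i, Bd X Y (W i)) →
      ‖NN U U U - NN V V V‖ ≤ C * (B * (X ^ (1 - 2 * s) * Y ^ (1 + 2 * s)) + G * (X * Y)) := by
  obtain ⟨C, hC0, hC⟩ := gam_two hs0 hs1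
  refine ⟨9 * (4 * Real.pi ^ 2) + 9 * (4 * Real.pi ^ 2 + C) + 9 * (4 * Real.pi ^ 2 + C),
    by positivity, fun U V W B G X Y hdiv hU hB hG hM bU bV bW => ?_⟩
  have rV : ∀ i, Rap (V i) := fun i => (bV i).rap
  have rW : ∀ i, Rap (W i) := fun i => (bW i).rap
  have rU : ∀ i, Rap (U i) := fun i => (bU i).rap
  set M := B * (X ^ (1 - 2 * s) * Y ^ (1 + 2 * s)) + G * (X * Y) with hMdef
  have h1 : ‖NN W U U‖ ≤ 9 * (4 * Real.pi ^ 2) * M := by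
    unfold NN
    have h2 : ∀ i j : Fin 3, ‖Tri (W j) (D j (U i)) (Lam (U i))‖ ≤ 4 * Real.pi ^ 2 * M := by
      intro i j
      rw [tri_comm12, tri_comm23]
      exact tri_two hs0 hs1.le (hM j) hB hG (bU i) (bU i) j
    refine (norm_sum_le _ _).trans ?_
    have h3 : ∀ i ∈ (Finset.univ : Finset (Fin 3)),
        ‖∑ j, Tri (W j) (D j (U i)) (Lam (U i))‖ ≤ 3 * (4 * Real.pi ^ 2 * M) := by
      intro i _
      refine (norm_sum_le_of_le _ fun j _ => h2 i j).trans ?_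
      simp
    refine (Finset.sum_le_sum h3).trans ?_
    simp
    linarith
  have key : ∀ (P : Fin 3 → K3 → ℂ), (∀ i, Bd X Y (P i)) →
      ‖NN V P W + NN V W P‖ ≤ 9 * (4 * Real.pi ^ 2 + C) * M := by
    intro P bP
    rw [sv_eq rV hdiv (fun i => (bP i).rap) rW]
    have h2 : ∀ i j : Fin 3, ‖Tri (Lam (V j)) (D j (P i)) (W i) - Gam (V j) (D j (P i)) (W i)‖
        ≤ (4 * Real.pi ^ 2 + C) * M := by
      intro i j
      refine (norm_sub_le _ _).trans ?_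
      rw [add_mul]
      refine add_le_add ?_ ?_
      · rw [tri_comm12]
        exact tri_two hs0 hs1.le (hM i) hB hG (bP i) (bV j) j
      · exact hC (V j) (P i) (W i) B G X Y j (rW i) hB hG (hM i) (bV j) (bP i)
    refine (norm_sum_le _ _).trans ?_
    have h3 : ∀ i ∈ (Finset.univ : Finset (Fin 3)),
        ‖∑ j, (Tri (Lam (V j)) (D j (P i)) (W i) - Gam (V j) (D j (P i)) (W i))‖
          ≤ 3 * ((4 * Real.pi ^ 2 + C) * M) := by
      intro i _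
      refine (norm_sum_le_of_le _ fun j _ => h2 i j).trans ?_
      simp
    refine (Finset.sum_le_sum h3).trans ?_
    simp
    linarith
  have h4 := key V bV
  have h5 := key W bW
  have h6 := nn_sub rV rW hU
  have h7 : ‖(2 : ℂ) * (NN U U U - NN V V V)‖ ≤ 2 * (9 * (4 * Real.pi ^ 2) * M)
      + 2 * (9 * (4 * Real.pi ^ 2 + C) * M) + 9 * (4 * Real.pi ^ 2 + C) * M := by
    rw [h6]
    refine (norm_add_le _ _).trans (add_le_add ((norm_add_le _ _).trans (add_le_add ?_ ?_)) h5)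
    · rw [norm_mul]; simpa using h1
    · rw [norm_mul]; simpa using h4
  rw [norm_mul, Complex.norm_ofNat] at h7
  have hM0 : 0 ≤ (4 * Real.pi ^ 2 + C) * M := by
    have := (norm_nonneg _).trans h5
    linarith
  linarith

end Pool.Agent.TH300.HS
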