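import Pool.Agent.TH300.HS.Itp

/-!
The production of the norm of order one half: comparison.
-/

set_option autoImplicit false

open MeasureTheory Set Filter Topology
open H459R3.NS Pool.Agent.TH305.FB

namespace Pool.Agent.TH300.HS

/-- The form. -/
noncomputable def NN (a b c : Fin 3 → K3 → ℂ) : ℂ := ∑ i, ∑ j, Tri (a j) (D j (b i)) (Lam (c i))

theorem D_add (j : Fin 3) (a b : K3 → ℂ) : D j (a + b) = D j a + D j b := by
  funext k
  simp only [D, Pi.add_apply]
  ring

theorem Lam_add (a b : K3 → ℂ) : Lam (a + b) = Lam a + Lam b := by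
  funext k
  simp only [Lam, Pi.add_apply]
  ring

theorem D_Lam (j : Fin 3) (a : K3 → ℂ) : D j (Lam a) = Lam (D j a) := by
  funext k
  simp only [D, Lam]
  ring

variable {U V W a b c : Fin 3 → K3 → ℂ}

theorem rap_add {x y : K3 → ℂ} (hx : Rap x) (hy : Rap y) : Rap (x + y) := by
  intro n
  refine Summable.of_nonneg_of_le (fun k => by positivity) (fun k => ?_) ((hx n).add (hy n))
  rw [Pi.add_apply, ← mul_add]
  gcongr
  exact norm_add_le _ _

theorem NN_add1 (ha : ∀ i, Rap (a i)) (hb : ∀ i, Rap (b i)) (hV : ∀ i, Rap (V i))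
    (hc : ∀ i, Rap (c i)) :
    NN (fun i => a i + b i) V c = NN a V c + NN b V c := by
  unfold NN
  rw [← Finset.sum_add_distrib]
  refine Finset.sum_congr rfl fun i _ => ?_
  rw [← Finset.sum_add_distrib]
  exact Finset.sum_congr rfl fun j _ => tri_add1 (ha j).summable (hb j).summable
    ((hV i).D j).summable (rap_Lam (hc i)).summable

theorem NN_add2 (ha : ∀ i, Rap (a i)) (hb : ∀ i, Rap (b i)) (hV : ∀ i, Rap (V i))
    (hc : ∀ i, Rap (c i)) :
    NN a (fun i => b i + V i) c = NN a b c + NN a V c := by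
  unfold NN
  rw [← Finset.sum_add_distrib]
  refine Finset.sum_congr rfl fun i _ => ?_
  rw [← Finset.sum_add_distrib]
  refine Finset.sum_congr rfl fun j _ => ?_
  rw [D_add]
  exact tri_add2 (ha j).summable ((hb i).D j).summable ((hV i).D j).summable
    (rap_Lam (hc i)).summable

theorem NN_add3 (ha : ∀ i, Rap (a i)) (hb : ∀ i, Rap (b i)) (hV : ∀ i, Rap (V i))
    (hc : ∀ i, Rap (c i)) :
    NN a b (fun i => V i + c i) = NN a b V + NN a b c := by
  unfold NN
  rw [← Finset.sum_add_distrib]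
  refine Finset.sum_congr rfl fun i _ => ?_
  rw [← Finset.sum_add_distrib]
  refine Finset.sum_congr rfl fun j _ => ?_
  rw [Lam_add]
  exact tri_add3 (ha j).summable ((hb i).D j).summable (rap_Lam (hV i)).summable
    (rap_Lam (hc i)).summable

theorem tri_div (hV : ∀ i, Rap (V i)) (hdiv : ∀ k, ∑ j, (k j : ℂ) * V j k = 0)
    {x y : K3 → ℂ} (hx : Rap x) (hy : Rap y) : ∑ j, Tri (D j (V j)) x y = 0 := by
  rw [← tri_sum1 Finset.univ (fun j => ((hV j).D j).summable) hx.summable hy.summable]
  have h3 : (fun k => ∑ j, D j (V j) k) = fun _ => 0 := by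
    funext k
    unfold D
    have := hdiv k
    calc ∑ j, 2 * (Real.pi : ℂ) * Complex.I * (k j : ℂ) * V j k
        = 2 * Real.pi * Complex.I * ∑ j, (k j : ℂ) * V j k := by
          rw [Finset.mul_sum]
          exact Finset.sum_congr rfl fun j _ => by ring
      _ = 0 := by rw [this, mul_zero]
  rw [h3]
  unfold Tri
  simp

/-- The symmetric part. -/
theorem sv_eq (hV : ∀ i, Rap (V i)) (hdiv : ∀ k, ∑ j, (k j : ℂ) * V j k = 0)
    (hb : ∀ i, Rap (b i)) (hc : ∀ i, Rap (c i)) :
    NN V b c + NN V c b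
      = ∑ i, ∑ j, (Tri (Lam (V j)) (D j (b i)) (c i) - Gam (V j) (D j (b i)) (c i)) := by
  unfold NN
  rw [← Finset.sum_add_distrib]
  refine Finset.sum_congr rfl fun i _ => ?_
  have h1 : ∑ j, Tri (V j) (D j (c i)) (Lam (b i))
      = ∑ j, -Tri (V j) (Lam (D j (b i))) (c i) := by
    have h2 : ∀ j, Tri (V j) (D j (c i)) (Lam (b i))
        = -Tri (D j (V j)) (c i) (Lam (b i)) + -Tri (V j) (Lam (D j (b i))) (c i) := by
      intro j
      rw [tri_D2 (hV j) (hc i) (rap_Lam (hb i)) j, D_Lam, tri_comm23 (V j) (c i)]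
      ring
    simp_rw [h2]
    rw [Finset.sum_add_distrib, Finset.sum_neg_distrib, tri_div hV hdiv (hc i) (rap_Lam (hb i)),
      neg_zero, zero_add]
  rw [h1, ← Finset.sum_add_distrib]
  refine Finset.sum_congr rfl fun j _ => ?_
  unfold Gam
  ring

/-- The comparison of the productions. -/
theorem nn_sub (hV : ∀ i, Rap (V i)) (hW : ∀ i, Rap (W i))
    (hU : U = fun i => V i + W i) :
    2 * (NN U U U - NN V V V) = 2 * NN W U U + 2 * (NN V V W + NN V W V)
      + (NN V W W + NN V W W) := by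
  have hUr : ∀ i, Rap (U i) := fun i => by rw [hU]; exact rap_add (hV i) (hW i)
  have h1 : NN U U U = NN V U U + NN W U U := by
    conv_lhs => rw [show NN U U U = NN (fun i => V i + W i) U U by rw [← hU]]
    exact NN_add1 hV hW hUr hUr
  have h2 : NN V U U = NN V V U + NN V W U := by
    conv_lhs => rw [show NN V U U = NN V (fun i => V i + W i) U by rw [← hU]]
    exact NN_add2 hV hV hW hUr
  have h3 : NN V V U = NN V V V + NN V V W := by
    conv_lhs => rw [show NN V V U = NN V V (fun i => V i + W i) by rw [← hU]]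
    exact NN_add3 hV hV hV hW
  have h4 : NN V W U = NN V W V + NN V W W := by
    conv_lhs => rw [show NN V W U = NN V W (fun i => V i + W i) by rw [← hU]]
    exact NN_add3 hV hW hV hW
  rw [h1, h2, h3, h4]
  ring

end Pool.Agent.TH300.HS
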