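import Pool.Agent.TH305.FB.Gw

/-!
Grönwall's inequality with dissipation.
-/

set_option autoImplicit false

open MeasureTheory Set Filter Topology

namespace Pool.Agent.TH300.HS

theorem integrableOn_Ioo_of_bdd {f : ℝ → ℝ} {T M : ℝ} (hf0 : ∀ t ∈ Ico 0 T, 0 ≤ f t)
    (hc : ContinuousOn f (Ico 0 T)) (h : ∀ t ∈ Ico 0 T, ∫ s in (0 : ℝ)..t, f s ≤ M) :
    IntegrableOn f (Ioo 0 T) := by
  rcases le_or_gt T 0 with hT | hT
  · rw [Ioo_eq_empty (not_lt.2 hT)]
    exact integrableOn_empty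
  · obtain ⟨a, -, ha, hat⟩ := exists_seq_strictMono_tendsto' hT
    have h1 : IntegrableOn f (Ioc 0 T) := by
      refine integrableOn_Ioc_of_intervalIntegral_norm_bounded (l := atTop) (a := fun _ => 0)
        (b := a) (I := M) (fun i => ?_) tendsto_const_nhds hat (Eventually.of_forall fun i => ?_)
      · have : ContinuousOn f (Icc 0 (a i)) :=
          hc.mono fun s hs => ⟨hs.1, hs.2.trans_lt (ha i).2⟩
        exact (this.integrableOn_Icc).mono_set Ioc_subset_Icc_self
      · have h2 := h (a i) ⟨(ha i).1.le, (ha i).2⟩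
        rw [intervalIntegral.integral_of_le (ha i).1.le] at h2
        rw [setIntegral_congr_fun (g := f) measurableSet_Ioc fun s hs => ?_]
        · exact h2
        · simp only [Real.norm_eq_abs]
          exact abs_of_nonneg (hf0 s ⟨hs.1.le, hs.2.trans_lt (ha i).2⟩)
    exact h1.mono_set Ioo_subset_Ioc_self

/-- Grönwall's inequality with dissipation. -/
theorem gron_diss {F F' D g : ℝ → ℝ} {T ν B : ℝ} (hν : 0 < ν)
    (hF0 : ∀ t ∈ Ico 0 T, 0 ≤ F t) (hD0 : ∀ t ∈ Ico 0 T, 0 ≤ D t)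
    (hF : ContinuousOn F (Ico 0 T)) (hD : ContinuousOn D (Ico 0 T))
    (hd : ∀ t ∈ Ioo 0 T, HasDerivAt F (F' t) t)
    (hg0 : ∀ t ∈ Ioo 0 T, 0 ≤ g t) (hgi : IntegrableOn g (Ioo 0 T))
    (hgB : ∫ s in Ioo 0 T, g s ≤ B)
    (hle : ∀ t ∈ Ioo 0 T, F' t ≤ -(ν * D t) + g t * F t) :
    (∀ t ∈ Ico 0 T, F t ≤ F 0 * Real.exp B) ∧ IntegrableOn D (Ioo 0 T) := by
  have hgt : ∀ t ∈ Ico 0 T, IntegrableOn g (Icc 0 t) ∧ ∫ s in (0 : ℝ)..t, g s ≤ B := by
    intro t ht
    have h1 : IntegrableOn g (Ioo 0 t) := hgi.mono_set (Ioo_subset_Ioo_right ht.2.le)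
    constructor
    · rw [integrableOn_Icc_iff_integrableOn_Ioc, integrableOn_Ioc_iff_integrableOn_Ioo]
      exact h1
    · rw [intervalIntegral.integral_of_le ht.1, integral_Ioc_eq_integral_Ioo]
      refine le_trans ?_ hgB
      refine setIntegral_mono_set hgi ?_ (Ioo_subset_Ioo_right ht.2.le).eventuallyLE
      rw [Filter.EventuallyLE, ae_restrict_iff' measurableSet_Ioo]
      exact Eventually.of_forall fun s hs => hg0 s hs
  have hB : ∀ t ∈ Ico 0 T, F t ≤ F 0 * Real.exp B := by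
    intro t ht
    obtain ⟨hi, hb⟩ := hgt t ht
    have h0T : (0 : ℝ) ∈ Ico 0 T := ⟨le_rfl, ht.1.trans_lt ht.2⟩
    have key : ∀ ε > 0, F t + ε ≤ (F 0 + ε) * Real.exp B := by
      intro ε hε
      refine TH305.FB.gron_log (F := fun s => F s + ε) (F' := F') (g := g) ht.1 ?_ ?_ ?_ hi hb ?_
      · exact (hF.mono fun s hs => ⟨hs.1, hs.2.trans_lt ht.2⟩).add continuousOn_const
      · intro s hs
        have := hF0 s ⟨hs.1, hs.2.trans_lt ht.2⟩
        linarith
      · intro s hs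
        exact (hd s ⟨hs.1, hs.2.trans ht.2⟩).add_const ε
      · intro s hs
        have hsT : s ∈ Ioo 0 T := ⟨hs.1, hs.2.trans ht.2⟩
        have h1 := hle s hsT
        have h2 := hD0 s ⟨hs.1.le, hsT.2⟩
        have h3 := mul_nonneg hν.le h2
        have h4 := mul_nonneg (hg0 s hsT) hε.le
        show F' s ≤ g s * (F s + ε)
        linarith
    have hE := Real.exp_pos B
    refine le_of_forall_pos_le_add fun ε hε => ?_
    have h1 := key (ε / Real.exp B) (by positivity)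
    have h2 : (F 0 + ε / Real.exp B) * Real.exp B = F 0 * Real.exp B + ε := by
      field_simp
    rw [h2] at h1
    have h3 : 0 < ε / Real.exp B := by positivity
    linarith
  refine ⟨hB, ?_⟩
  rcases le_or_gt T 0 with hT | hT
  · rw [Ioo_eq_empty (not_lt.2 hT)]
    exact integrableOn_empty
  have h0T : (0 : ℝ) ∈ Ico 0 T := ⟨le_rfl, hT⟩
  set F1 := F 0 * Real.exp B with hF1
  have hF10 : 0 ≤ F1 := mul_nonneg (hF0 0 h0T) (Real.exp_pos B).le
  refine integrableOn_Ioo_of_bdd (M := (F 0 + F1 * B) / ν) hD0 hD fun t ht => ?_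
  obtain ⟨hi, hb⟩ := hgt t ht
  have hcF : ContinuousOn F (Icc 0 t) := hF.mono fun s hs => ⟨hs.1, hs.2.trans_lt ht.2⟩
  have hcD : ContinuousOn D (Icc 0 t) := hD.mono fun s hs => ⟨hs.1, hs.2.trans_lt ht.2⟩
  have hDi : IntegrableOn D (Icc 0 t) := hcD.integrableOn_Icc
  have h1 := intervalIntegral.sub_le_integral_of_hasDeriv_right_of_le (g := F) (g' := F')
    (φ := fun s => -(ν * D s) + F1 * g s) ht.1 hcF
    (fun s hs => (hd s ⟨hs.1, hs.2.trans ht.2⟩).hasDerivWithinAt)
    ((hDi.const_mul ν).neg.add (hi.const_mul F1)) (fun s hs => by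
      have hsT : s ∈ Ioo 0 T := ⟨hs.1, hs.2.trans ht.2⟩
      have h2 := hle s hsT
      have h3 := mul_le_mul_of_nonneg_left (hB s ⟨hs.1.le, hsT.2⟩) (hg0 s hsT)
      show F' s ≤ -(ν * D s) + F1 * g s
      linarith)
  have i1 : IntervalIntegrable D volume 0 t :=
    (intervalIntegrable_iff_integrableOn_Icc_of_le ht.1).2 hDi
  have i2 : IntervalIntegrable g volume 0 t :=
    (intervalIntegrable_iff_integrableOn_Icc_of_le ht.1).2 hi
  have i3 : IntervalIntegrable (fun s => -(ν * D s)) volume 0 t := (i1.const_mul ν).neg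
  rw [intervalIntegral.integral_add i3 (i2.const_mul F1),
    intervalIntegral.integral_neg, intervalIntegral.integral_const_mul,
    intervalIntegral.integral_const_mul] at h1
  rw [le_div_iff₀ hν]
  have h4 := mul_le_mul_of_nonneg_left hb hF10
  have h5 := hF0 t ht
  linarith

end Pool.Agent.TH300.HS
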