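import Pool.Agent.TH300.HS.Pro
import Pool.Agent.TH300.HS.Bal
import Pool.Agent.TH300.HS.Ga
import Pool.Agent.H459R3.NS.Final
import Pool.Agent.TH305.FB.Fin

/-!
The evolution of the norm of order one half.
-/

set_option autoImplicit false

open MeasureTheory Set Filter Topology
open scoped ENNReal
open H459R3.NS Pool.Agent.TH305.FB

namespace Pool.Agent.TH300.HS

/-- The bound of the production. -/
theorem prod_bound {p : ℝ≥0∞} (hp3 : 3 < p) : ∃ C : ℝ, 0 ≤ C ∧
    ∀ (U : Fin 3 → K3 → ℂ) (σ R β : ℝ), (∀ i, Rap (U i)) →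
      (∀ k, ∑ j, (k j : ℂ) * U j k = 0) → σ ^ 2 = 1 → 0 ≤ β →
      (∀ i, eLpNorm (S ({k : K3 | R ≤ en k}.indicator (hp σ U i))) p (volume.restrict cube)
        ≤ ENNReal.ofReal β) →
      ‖NN U U U‖ ≤ C * (β * (√(XX U) ^ (1 - th p) * √(YY U) ^ th p * √(YY U))
        + √(81 * (max R 1) ^ 3 * EE U) * (√(XX U) * √(YY U))) := by
  obtain ⟨C1, hC10, hC1⟩ := mb_of_Lp hp3
  have ht0 := th_nonneg p
  have ht1 := th_lt_one hp3
  obtain ⟨C2, hC20, hC2⟩ := nn_bound (s := th p / 2) (by linarith) (by linarith)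
  refine ⟨C2 * (C1 + 1), by positivity, fun U σ R β hU hdiv hσ hβ hL => ?_⟩
  have hσ' : (-σ) ^ 2 = 1 := by rw [neg_sq]; exact hσ
  set G := √(81 * (max R 1) ^ 3 * EE U) with hG
  have hG0 : 0 ≤ G := Real.sqrt_nonneg _
  have hM : ∀ i, Mb (th p / 2) (C1 * β) G (hp σ U i) := by
    intro i
    exact mb_hp hσ hU i (hC1 _ β ((rap_hp hσ hU i).ind _) hβ (hL i))
  have hz : NN (hp (-σ) U) (hp (-σ) U) (hp (-σ) U) = 0 :=
    nn_zero (rap_hp hσ' hU) (hp_hel hσ' hdiv)
  have h := hC2 U (hp (-σ) U) (hp σ U) (C1 * β) G √(XX U) √(YY U) (div_hp hdiv (-σ))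
    (by funext i; exact (hp_add σ U i).symm) (by positivity) hG0 hM
    (fun i => bd_of hU (hU i) (U_sq_le U i))
    (fun i => bd_of hU (rap_hp hσ' hU i) (hp_sq_le hσ' U i))
    (fun i => bd_of hU (rap_hp hσ hU i) (hp_sq_le hσ U i))
  rw [hz, sub_zero] at h
  have e1 : 1 - 2 * (th p / 2) = 1 - th p := by ring
  have e2 : √(YY U) ^ (1 + 2 * (th p / 2)) = √(YY U) ^ th p * √(YY U) := by
    have e3 : 1 + 2 * (th p / 2) = th p + 1 := by ring
    rw [e3]
    rcases (Real.sqrt_nonneg (YY U)).eq_or_lt with h0 | h0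
    · rw [← h0, Real.zero_rpow (by linarith), mul_zero]
    · rw [Real.rpow_add h0, Real.rpow_one]
  rw [e1, e2] at h
  refine h.trans ?_
  have n0 := Real.sqrt_nonneg (XX U)
  have n1 := Real.sqrt_nonneg (YY U)
  have n2 : 0 ≤ √(XX U) ^ (1 - th p) * √(YY U) ^ th p * √(YY U) :=
    mul_nonneg (mul_nonneg (Real.rpow_nonneg n0 _) (Real.rpow_nonneg n1 _)) n1
  have n3 : 0 ≤ G * (√(XX U) * √(YY U)) := by positivity
  have n4 := mul_nonneg hβ n2
  have n5 := mul_nonneg hC10 n3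
  calc C2 * (C1 * β * (√(XX U) ^ (1 - th p) * (√(YY U) ^ th p * √(YY U)))
        + G * (√(XX U) * √(YY U)))
      = C2 * (C1 * (β * (√(XX U) ^ (1 - th p) * √(YY U) ^ th p * √(YY U)))
        + G * (√(XX U) * √(YY U))) := by ring
    _ ≤ C2 * ((C1 + 1) * (β * (√(XX U) ^ (1 - th p) * √(YY U) ^ th p * √(YY U))
        + G * (√(XX U) * √(YY U)))) := by
        refine mul_le_mul_of_nonneg_left ?_ hC20
        nlinarith
    _ = _ := by ring

section

variable {ν T : ℝ} {u : ℝ → V → V} {P : ℝ → V → ℝ}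

theorem N_le_N4 (k : K3) : (N k : ℝ) ≤ (N k : ℝ) ^ 4 := by
  have : N k ≤ N k ^ 4 := Nat.le_self_pow (by norm_num) _
  exact_mod_cast this

theorem N3_le_N4 (k : K3) : (N k : ℝ) ^ 3 ≤ (N k : ℝ) ^ 4 := by
  rcases Nat.eq_zero_or_pos (N k) with h | h
  · rw [h]; norm_num
  · have : N k ^ 3 ≤ N k ^ 4 := Nat.pow_le_pow_right h (by norm_num)
    exact_mod_cast this

theorem XX_eq (U : Fin 3 → K3 → ℂ) : XX U = 2 * WF (fun k => en k / 2) U := by
  unfold XX WF
  rw [← tsum_mul_left]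
  exact tsum_congr fun k => by ring

theorem YY_eq (U : Fin 3 → K3 → ℂ) : YY U = 8 * WF (fun k => en k ^ 3 / 8) U := by
  unfold YY WF
  rw [← tsum_mul_left]
  exact tsum_congr fun k => by ring

theorem CW_eq (U : Fin 3 → K3 → ℂ) : CW (fun k => en k / 2) U = (1 / 2 : ℂ) * NN U U U := by
  unfold CW NN
  rw [Finset.mul_sum]
  refine Finset.sum_congr rfl fun i _ => ?_
  rw [Finset.mul_sum]
  refine Finset.sum_congr rfl fun j _ => ?_
  rw [← tri_smul3]
  congr 1
  funext k
  unfold HS.Lam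
  push_cast
  ring

theorem hasDerivAt_XX (h : IsSol ν T u P) {t : ℝ} (ht : t ∈ Ioo 0 T) :
    HasDerivAt (fun s => XX (uh u s))
      (-(8 * Real.pi ^ 2 * ν * YY (uh u t)) - 2 * (NN (uh u t) (uh u t) (uh u t)).re) t := by
  have h1 := (WF_hasDerivAt (w := fun k => en k / 2) (fun k => by
      have := en_nonneg k
      positivity) (fun k => by
      have := en_le k
      have := N_le_N4 k
      linarith) (fun k => by rw [en_neg]) h ht).const_mul 2
  have e1 : (fun s => 2 * WF (fun k => en k / 2) (uh u s)) = fun s => XX (uh u s) := by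
    funext s
    rw [XX_eq]
  rw [e1] at h1
  refine h1.congr_deriv ?_
  rw [CW_eq]
  have e2 : ∑' k, nk2 k * (en k / 2 * TH305.FB.e2 (uh u t) k) = YY (uh u t) / 2 := by
    unfold YY
    rw [← tsum_div_const]
    refine tsum_congr fun k => ?_
    rw [← HS.en_sq]
    ring
  rw [e2]
  have e3 : ((1 / 2 : ℂ) * NN (uh u t) (uh u t) (uh u t)).re
      = (1 / 2) * (NN (uh u t) (uh u t) (uh u t)).re := by
    have : (1 / 2 : ℂ) = ((1 / 2 : ℝ) : ℂ) := by push_cast; ring
    rw [this, Complex.re_ofReal_mul]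
  rw [e3]
  ring

theorem XX_cont (h : IsSol ν T u P) : ContinuousOn (fun t => XX (uh u t)) (Ico 0 T) := by
  simp_rw [XX_eq]
  exact continuousOn_const.mul (WF_continuousOn (fun k => by
      have := en_nonneg k
      positivity) (fun k => by
      have := en_le k
      have := N_le_N4 k
      linarith) h)

theorem YY_cont (h : IsSol ν T u P) : ContinuousOn (fun t => YY (uh u t)) (Ico 0 T) := by
  simp_rw [YY_eq]
  refine continuousOn_const.mul (WF_continuousOn (fun k => by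
      have := en_nonneg k
      positivity) (fun k => ?_) h)
  have h1 := en_le k
  have h2 := N3_le_N4 k
  have h3 : en k ^ 3 ≤ (2 * (N k : ℝ)) ^ 3 := pow_le_pow_left₀ (en_nonneg k) h1 3
  rw [mul_pow] at h3
  linarith

/-- The bound of the `L⁴` norm. -/
theorem four_bound : ∃ C : ℝ, 0 ≤ C ∧ ∀ (ν T : ℝ) (u : ℝ → V → V) (P : ℝ → V → ℝ),
    IsSol ν T u P → ∀ t ∈ Ico 0 T, ∀ i,
      eLpNorm (fun x => u t x i) 4 (volume.restrict cube)
        ≤ ENNReal.ofReal (√(EE (uh u t)) + C * (√(XX (uh u t)) ^ (3 / 4 : ℝ)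
          * √(YY (uh u t)) ^ (1 / 4 : ℝ))) := by
  obtain ⟨C, hC0, hC⟩ := sob (s := 3 / 4) (by norm_num) (by norm_num)
  have e4 : (6 / (3 - 2 * (3 / 4)) : ℝ) = 4 := by norm_num
  rw [e4] at hC
  refine ⟨C ^ (1 / 4 : ℝ), by positivity, fun ν T u P h t ht i => ?_⟩
  have hU := rap_uh h ht
  set a := uh u t i with ha
  set a0 : K3 → ℂ := ({0} : Set K3).indicator a with ha0
  set a1 : K3 → ℂ := ({0} : Set K3)ᶜ.indicator a with ha1
  have hr0 : Rap a0 := (hU i).ind _
  have hr1 : Rap a1 := (hU i).ind _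
  have hadd : a0 + a1 = a := Set.indicator_self_add_compl _ _
  have h1 : eLpNorm (fun x => u t x i) 4 (volume.restrict cube)
      = eLpNorm (S a) 4 (volume.restrict cube) := by
    refine eLpNorm_congr_norm_ae (Eventually.of_forall fun x => ?_)
    have := S_fr (h.sp ht i) x
    rw [ha, uh, this, Complex.norm_real]
  have h2 : S a = S a0 + S a1 := by
    funext x
    rw [Pi.add_apply, ← S_add hr0.summable hr1.summable, hadd]
  rw [h1, h2]
  refine (eLpNorm_add_le (S_continuous hr0.summable).aestronglyMeasurable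
    (S_continuous hr1.summable).aestronglyMeasurable (by norm_num)).trans ?_
  rw [ENNReal.ofReal_add (Real.sqrt_nonneg _) (by positivity)]
  refine add_le_add ?_ ?_
  · have h3 : ∀ x, ‖S a0 x‖ ≤ √(EE (uh u t)) := by
      intro x
      refine (norm_S_le hr0.summable x).trans ?_
      have h4 : ∑' k, ‖a0 k‖ = ‖a 0‖ := by
        rw [tsum_eq_single 0 fun k hk => ?_]
        · rw [ha0, Set.indicator_of_mem (Set.mem_singleton _)]
        · rw [ha0, Set.indicator_of_notMem (by simpa using hk), norm_zero]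
      rw [h4]
      refine Real.le_sqrt_of_sq_le ?_
      refine (U_sq_le (uh u t) i 0).trans ?_
      have h5 := summable_ene hU 0
      simp only [pow_zero, one_mul] at h5
      exact h5.le_tsum 0 fun k _ => TH305.FB.e2_nonneg _ _
    haveI : IsProbabilityMeasure (volume.restrict cube) :=
      ⟨by rw [Measure.restrict_apply_univ, volume_cube]⟩
    have h4 := eLpNorm_le_of_ae_bound (p := 4) (μ := volume.restrict cube)
      (Eventually.of_forall h3)
    refine h4.trans ?_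
    simp
  · have hb : Bd √(XX (uh u t)) √(YY (uh u t)) a1 := by
      refine bd_of hU hr1 fun k => ?_
      refine le_trans ?_ (U_sq_le (uh u t) i k)
      have := norm_indicator_le_norm_self a k (s := ({0} : Set K3)ᶜ)
      gcongr
    have h3 := hC a1 hr1 (by rw [ha1]; simp)
    have h4 := Hs_interp hr1 (σ := 3 / 4) (by norm_num) (by norm_num) hb.half hb.three
    have e5 : (3 / 2 - 3 / 4 : ℝ) = 3 / 4 := by norm_num
    have e6 : (3 / 4 - 1 / 2 : ℝ) = 1 / 4 := by norm_num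
    rw [e5, e6] at h4
    rw [eLpNorm_eq_lintegral_rpow_enorm_toReal (by norm_num) (by norm_num)]
    have e7 : (4 : ℝ≥0∞).toReal = 4 := by norm_num
    rw [e7]
    have h5 : ∫⁻ x in cube, ‖S a1 x‖ₑ ^ (4 : ℝ) = ∫⁻ x in cube, ENNReal.ofReal (‖S a1 x‖ ^ (4 : ℝ)) := by
      congr 1
      funext x
      rw [← ofReal_norm, ENNReal.ofReal_rpow_of_nonneg (norm_nonneg _) (by norm_num)]
    rw [h5]
    have hn := Hs_nonneg (3 / 4) a1
    calc (∫⁻ x in cube, ENNReal.ofReal (‖S a1 x‖ ^ (4 : ℝ))) ^ (1 / 4 : ℝ)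
        ≤ (ENNReal.ofReal (C * Hs (3 / 4) a1 ^ (4 : ℝ))) ^ (1 / 4 : ℝ) :=
          ENNReal.rpow_le_rpow h3 (by positivity)
      _ = ENNReal.ofReal (C ^ (1 / 4 : ℝ) * Hs (3 / 4) a1) := by
          rw [ENNReal.ofReal_rpow_of_nonneg (by positivity) (by positivity),
            Real.mul_rpow hC0 (by positivity), ← Real.rpow_mul hn]
          norm_num
      _ ≤ _ := by
          refine ENNReal.ofReal_le_ofReal ?_
          gcongr

end

end Pool.Agent.TH300.HS
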