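import Pool.Agent.TH300.HS.Mulb

/-!
The carré du champ form.
-/

set_option autoImplicit false

open MeasureTheory Set Filter Topology
open scoped ENNReal
open H459R3.NS Pool.Agent.TH305.FB

namespace Pool.Agent.TH300.HS

theorem int_tsum {α : Type*} [MeasurableSpace α] {μ : Measure α} {F : K3 → α → ℝ}
    (h0 : ∀ k x, 0 ≤ F k x) (hi : ∀ k, Integrable (F k) μ) (hsum : Summable fun k => ∫ x, F k x ∂μ)
    (hp : ∀ x, Summable fun k => F k x) :
    Integrable (fun x => ∑' k, F k x) μ ∧ ∫ x, ∑' k, F k x ∂μ = ∑' k, ∫ x, F k x ∂μ := by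
  have hnn : ∀ x, 0 ≤ ∑' k, F k x := fun x => tsum_nonneg fun k => h0 k x
  have he : ∀ x, ENNReal.ofReal (∑' k, F k x) = ∑' k, ENNReal.ofReal (F k x) := fun x =>
    ENNReal.ofReal_tsum_of_nonneg (fun k => h0 k x) (hp x)
  have hm : AEMeasurable (fun x => ∑' k, ENNReal.ofReal (F k x)) μ :=
    AEMeasurable.tsum fun k => (hi k).aestronglyMeasurable.aemeasurable.ennreal_ofReal
  have hl : ∫⁻ x, ENNReal.ofReal (∑' k, F k x) ∂μ = ENNReal.ofReal (∑' k, ∫ x, F k x ∂μ) := by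
    simp_rw [he]
    rw [lintegral_tsum fun k => (hi k).aestronglyMeasurable.aemeasurable.ennreal_ofReal,
      ENNReal.ofReal_tsum_of_nonneg (fun k => integral_nonneg (h0 k)) hsum]
    exact tsum_congr fun k => (ofReal_integral_eq_lintegral_ofReal (hi k)
      (Eventually.of_forall (h0 k))).symm
  have hmeas : AEStronglyMeasurable (fun x => ∑' k, F k x) μ := by
    have h1 : (fun x => ∑' k, F k x) = fun x => (∑' k, ENNReal.ofReal (F k x)).toReal := by
      funext x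
      rw [← he, ENNReal.toReal_ofReal (hnn x)]
    rw [h1]
    exact hm.ennreal_toReal.aestronglyMeasurable
  have hint : Integrable (fun x => ∑' k, F k x) μ := by
    refine ⟨hmeas, ?_⟩
    rw [hasFiniteIntegral_iff_ofReal (Eventually.of_forall hnn), hl]
    exact ENNReal.ofReal_lt_top
  refine ⟨hint, ?_⟩
  have h2 := ofReal_integral_eq_lintegral_ofReal hint (Eventually.of_forall hnn)
  rw [hl] at h2
  exact (ENNReal.ofReal_eq_ofReal_iff (integral_nonneg hnn)
    (tsum_nonneg fun k => integral_nonneg (h0 k))).1 h2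

/-- Multiplication by `|k|`. -/
noncomputable def Lam (a : K3 → ℂ) (k : K3) : ℂ := (en k : ℂ) * a k

theorem norm_Lam (a : K3 → ℂ) (k : K3) : ‖Lam a k‖ = en k * ‖a k‖ := by
  rw [Lam, norm_mul, Complex.norm_real, Real.norm_eq_abs, abs_of_nonneg (en_nonneg k)]

theorem rap_Lam {a : K3 → ℂ} (h : Rap a) : Rap (Lam a) := by
  intro n
  refine Summable.of_nonneg_of_le (fun k => by positivity) (fun k => ?_) ((h (n + 1)).mul_left 2)
  rw [norm_Lam]
  calc (N k : ℝ) ^ n * (en k * ‖a k‖) ≤ (N k : ℝ) ^ n * ((2 * N k) * ‖a k‖) := by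
        gcongr
        exact en_le k
    _ = _ := by ring

theorem Lam_zero (a : K3 → ℂ) : HS.Lam a 0 = 0 := by simp [HS.Lam, en_zero]

theorem D_zero (j : Fin 3) (a : K3 → ℂ) : D j a 0 = 0 := by simp [D]

/-- Coefficients of the difference `a (· + y) - a`. -/
noncomputable def dl (y : V) (a : K3 → ℂ) (k : K3) : ℂ := (ee k y - 1) * a k

theorem norm_ee_sub_le (k : K3) (y : V) : ‖ee k y - 1‖ ≤ 2 := by
  refine (norm_sub_le _ _).trans ?_
  rw [norm_ee, norm_one]
  norm_num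

theorem rap_dl {a : K3 → ℂ} (h : Rap a) (y : V) : Rap (dl y a) := by
  intro n
  refine Summable.of_nonneg_of_le (fun k => by positivity) (fun k => ?_) ((h n).mul_left 2)
  rw [HS.dl, norm_mul]
  calc (N k : ℝ) ^ n * (‖ee k y - 1‖ * ‖a k‖) ≤ (N k : ℝ) ^ n * (2 * ‖a k‖) := by
        gcongr
        exact norm_ee_sub_le k y
    _ = _ := by ring

theorem ee_zero_eq (y : V) : ee 0 y = 1 := ee_zero y

theorem dl_zero (y : V) (a : K3 → ℂ) : HS.dl y a 0 = 0 := by simp [HS.dl, ee_zero]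

/-- The carré du champ form. -/
noncomputable def Gam (a b c : K3 → ℂ) : ℂ := Tri (Lam a) b c + Tri a (Lam b) c - Tri a b (Lam c)

theorem kw_prod_le (p q : K3) (y : V) :
    ‖(kw (1 / 2) y : ℂ) * ((ee p y - 1) * (ee q y - 1))‖
      ≤ kw (1 / 2) y * ‖ee p y - 1‖ ^ 2 + kw (1 / 2) y * ‖ee q y - 1‖ ^ 2 := by
  rw [norm_mul, norm_mul, Complex.norm_real, Real.norm_eq_abs, abs_of_nonneg (kw_nonneg _ _)]
  have h2 : ‖ee p y - 1‖ * ‖ee q y - 1‖ ≤ ‖ee p y - 1‖ ^ 2 + ‖ee q y - 1‖ ^ 2 := by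
    nlinarith [sq_nonneg (‖ee p y - 1‖ - ‖ee q y - 1‖), norm_nonneg (ee p y - 1),
      norm_nonneg (ee q y - 1), sq_nonneg ‖ee p y - 1‖, sq_nonneg ‖ee q y - 1‖]
  have := mul_le_mul_of_nonneg_left h2 (kw_nonneg (1 / 2) y)
  linarith

theorem gam_eq {a b c : K3 → ℂ} (ha : Rap a) (hb : Rap b) (hc : Rap c) :
    ((ck (1 / 2) / 2 : ℝ) : ℂ) * Gam a b c
      = ∫ y : V, (kw (1 / 2) y : ℂ) * Tri (dl y a) (dl y b) c := by
  have hsa := ha.summable
  have hsb := hb.summable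
  have hsc := hc.summable
  have hh := hasSum_integral_of_summable_integral_norm (μ := (volume : Measure V))
    (F := fun (p : K3 × K3) (y : V) =>
      ((kw (1 / 2) y : ℂ) * ((ee p.1 y - 1) * (ee p.2 y - 1))) * (a p.1 * b p.2 * c (-p.1 - p.2)))
    (fun p => (kw_half_int p.1 p.2).mul_const _) ?_
  · have e1 : ∀ p : K3 × K3, ∫ y : V, ((kw (1 / 2) y : ℂ) * ((ee p.1 y - 1) * (ee p.2 y - 1)))
        * (a p.1 * b p.2 * c (-p.1 - p.2))
        = ((ck (1 / 2) / 2 : ℝ) : ℂ) * (Lam a p.1 * b p.2 * c (-p.1 - p.2)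
          + a p.1 * Lam b p.2 * c (-p.1 - p.2) - a p.1 * b p.2 * Lam c (-p.1 - p.2)) := by
      intro p
      rw [integral_mul_const, kw_half_integral]
      unfold HS.Lam
      have : en (-p.1 - p.2) = en (p.1 + p.2) := by rw [← en_neg]; congr 1; abel
      rw [this]
      push_cast
      ring
    simp_rw [e1] at hh
    have e2 : ∀ y : V, ∑' p : K3 × K3, ((kw (1 / 2) y : ℂ) * ((ee p.1 y - 1) * (ee p.2 y - 1)))
        * (a p.1 * b p.2 * c (-p.1 - p.2)) = (kw (1 / 2) y : ℂ) * Tri (dl y a) (dl y b) c := by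
      intro y
      unfold Tri
      rw [← tsum_mul_left]
      refine tsum_congr fun p => ?_
      unfold HS.dl
      ring
    simp_rw [e2] at hh
    rw [← hh.tsum_eq, tsum_mul_left]
    congr 1
    unfold Gam Tri
    have s1 := summable_tri (rap_Lam ha).summable hsb hsc
    have s2 := summable_tri hsa (rap_Lam hb).summable hsc
    have s3 := summable_tri hsa hsb (rap_Lam hc).summable
    rw [← s1.tsum_add s2, ← (s1.add s2).tsum_sub s3]
  · have hb1 : Summable fun p : K3 × K3 => ck (1 / 2) * (‖Lam a p.1‖ * ‖b p.2‖ * ‖c (-p.1 - p.2)‖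
        + ‖a p.1‖ * ‖Lam b p.2‖ * ‖c (-p.1 - p.2)‖) :=
      ((summable_norm_tri (rap_Lam ha).summable hsb hsc).add
        (summable_norm_tri hsa (rap_Lam hb).summable hsc)).mul_left _
    refine Summable.of_nonneg_of_le (fun p => integral_nonneg fun y => norm_nonneg _)
      (fun p => ?_) hb1
    have hi1 := kw_int (a := 1 / 2) (by norm_num) (by norm_num) p.1
    have hi2 := kw_int (a := 1 / 2) (by norm_num) (by norm_num) p.2
    have h1 : ∫ y : V, ‖((kw (1 / 2) y : ℂ) * ((ee p.1 y - 1) * (ee p.2 y - 1)))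
        * (a p.1 * b p.2 * c (-p.1 - p.2))‖
        ≤ ∫ y : V, (kw (1 / 2) y * ‖ee p.1 y - 1‖ ^ 2 + kw (1 / 2) y * ‖ee p.2 y - 1‖ ^ 2)
          * ‖a p.1 * b p.2 * c (-p.1 - p.2)‖ := by
      refine integral_mono ((kw_half_int p.1 p.2).mul_const _).norm
        ((hi1.add hi2).mul_const _) fun y => ?_
      rw [norm_mul]
      exact mul_le_mul_of_nonneg_right (kw_prod_le p.1 p.2 y) (norm_nonneg _)
    refine h1.trans (le_of_eq ?_)
    rw [integral_mul_const, integral_add hi1 hi2, kw_integral (by norm_num),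
      kw_integral (by norm_num), norm_mul, norm_mul, norm_Lam, norm_Lam]
    norm_num
    ring

/-- Integration of the norms of the differences. -/
theorem int_hs_dl {a : K3 → ℂ} (ha : Rap a) {s α : ℝ} (hs0 : 0 ≤ s) (hα : 0 < α) (hα1 : α < 1)
    (hsα : s + α ≤ 2) :
    Integrable (fun y : V => kw α y * hs s (dl y a)) ∧
      ∫ y : V, kw α y * hs s (dl y a) = ck α * hs (s + α) a := by
  have e1 : ∀ y : V, kw α y * HS.hs s (HS.dl y a)
      = ∑' k, (kw α y * ‖ee k y - 1‖ ^ 2) * (en k ^ (2 * s) * ‖a k‖ ^ 2) := by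
    intro y
    unfold HS.hs HS.dl
    rw [← tsum_mul_left]
    refine tsum_congr fun k => ?_
    rw [norm_mul]
    ring
  simp_rw [e1]
  have e2 : ∀ k, ∫ y : V, (kw α y * ‖ee k y - 1‖ ^ 2) * (en k ^ (2 * s) * ‖a k‖ ^ 2)
      = ck α * (en k ^ (2 * (s + α)) * ‖a k‖ ^ 2) := by
    intro k
    rw [integral_mul_const, kw_integral hα]
    rcases eq_or_ne k 0 with h | h
    · have z1 : (0 : ℝ) ^ (2 * α) = 0 := Real.zero_rpow (by linarith)
      have z2 : (0 : ℝ) ^ (2 * (s + α)) = 0 := Real.zero_rpow (by linarith)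
      rw [h, en_zero, z1, z2]
      ring
    · rw [mul_add, Real.rpow_add (en_pos h)]
      ring
  have h := int_tsum (μ := (volume : Measure V))
    (F := fun k y => (kw α y * ‖ee k y - 1‖ ^ 2) * (en k ^ (2 * s) * ‖a k‖ ^ 2))
    (fun k y => mul_nonneg (mul_nonneg (kw_nonneg _ _) (sq_nonneg _)) (hs_term_nonneg s a k))
    (fun k => (kw_int hα hα1 k).mul_const _) (by
      simp_rw [e2]
      exact (hs_summable ha (by linarith) hsα).mul_left _)
    (fun y => by
      have h1 := (hs_summable (rap_dl ha y) hs0 (by linarith)).mul_left (kw α y)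
      refine h1.congr fun k => ?_
      unfold HS.dl
      rw [norm_mul]
      ring)
  refine ⟨h.1, ?_⟩
  rw [h.2]
  simp_rw [e2]
  rw [tsum_mul_left]
  rfl

theorem kw_half_eq {α β : ℝ} (hαβ : α + β = 1) (y : V) : kw (1 / 2) y = √(kw α y) * √(kw β y) := by
  rw [← Real.sqrt_mul (kw_nonneg α y)]
  unfold kw
  rcases (eu_nonneg y).eq_or_lt with h | h
  · rw [← h, Real.zero_rpow (by norm_num)]
    have h1 : (-(3 + 2 * α)) ≠ 0 ∨ (-(3 + 2 * β)) ≠ 0 := by
      by_contra hcon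
      push Not at hcon
      linarith [hcon.1, hcon.2]
    rcases h1 with h1 | h1
    · rw [Real.zero_rpow h1]; simp
    · rw [Real.zero_rpow h1]; simp
  · rw [← Real.rpow_add h]
    have : -(3 + 2 * α) + -(3 + 2 * β) = 2 * (-(3 + 2 * (1 / 2))) := by linarith
    have h2 : eu y ^ (2 * (-(3 + 2 * (1 / 2 : ℝ)))) = (eu y ^ (-(3 + 2 * (1 / 2 : ℝ)))) ^ 2 := by
      rw [← Real.rpow_natCast, ← Real.rpow_mul h.le]
      congr 1
      push_cast
      ring
    rw [this, h2, Real.sqrt_sq (Real.rpow_nonneg h.le _)]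

theorem int_cs {a b : K3 → ℂ} (ha : Rap a) (hb : Rap b) {s α β : ℝ} (hs0 : 0 ≤ s) (hα : 0 < α)
    (hβ : 0 < β) (hαβ : α + β = 1) (hs1 : s ≤ 1) :
    Integrable (fun y : V => kw (1 / 2) y * (Hs s (dl y a) * Hs s (dl y b))) ∧
      ∫ y : V, kw (1 / 2) y * (Hs s (dl y a) * Hs s (dl y b))
        ≤ √(ck α * ck β) * (Hs (s + α) a * Hs (s + β) b) := by
  obtain ⟨i1, e1⟩ := int_hs_dl ha hs0 hα (by linarith) (by linarith)
  obtain ⟨i2, e2⟩ := int_hs_dl hb hs0 hβ (by linarith) (by linarith)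
  have hm : ∀ c : K3 → ℂ, Rap c → Measurable fun y : V => HS.hs s (HS.dl y c) := by
    intro c hc
    have : Continuous fun y : V => HS.hs s (HS.dl y c) := by
      unfold HS.hs HS.dl
      refine continuous_tsum (u := fun k => 4 * (en k ^ (2 * s) * ‖c k‖ ^ 2)) (fun k => ?_)
        ((hs_summable hc hs0 (by linarith)).mul_left 4) (fun k y => ?_)
      · exact continuous_const.mul
          ((((ee_continuous k).sub continuous_const).mul continuous_const).norm.pow 2)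
      · rw [Real.norm_eq_abs, abs_of_nonneg (mul_nonneg (en_rpow_nonneg _ _) (sq_nonneg _)),
          norm_mul, mul_pow]
        have h1 := norm_ee_sub_le k y
        have h2 : ‖ee k y - 1‖ ^ 2 ≤ 4 := by nlinarith [norm_nonneg (ee k y - 1)]
        have h3 := hs_term_nonneg s c k
        nlinarith
    exact this.measurable
  have hf : ∀ (c : K3 → ℂ) (δ : ℝ) (y : V), (√(kw δ y) * Hs s (HS.dl y c)) ^ 2
      = kw δ y * HS.hs s (HS.dl y c) := by
    intro c δ y
    rw [mul_pow, Real.sq_sqrt (kw_nonneg _ _), Hs_sq]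
  have hfm : ∀ (c : K3 → ℂ) (δ : ℝ), Rap c →
      Measurable fun y : V => √(kw δ y) * Hs s (HS.dl y c) := by
    intro c δ hc
    exact (kw_meas δ).sqrt.mul (hm c hc).sqrt
  have ef : ∀ y : V, kw (1 / 2) y * (Hs s (HS.dl y a) * Hs s (HS.dl y b))
      = (√(kw α y) * Hs s (HS.dl y a)) * (√(kw β y) * Hs s (HS.dl y b)) := by
    intro y
    rw [kw_half_eq hαβ]
    ring
  have ia : Integrable fun y : V => (√(kw α y) * Hs s (HS.dl y a)) ^ 2 := by
    simp_rw [hf]; exact i1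
  have ib : Integrable fun y : V => (√(kw β y) * Hs s (HS.dl y b)) ^ 2 := by
    simp_rw [hf]; exact i2
  have iab : Integrable fun y : V => (√(kw α y) * Hs s (HS.dl y a))
      * (√(kw β y) * Hs s (HS.dl y b)) := by
    refine (ia.add ib).mono' ((hfm a α ha).mul (hfm b β hb)).aestronglyMeasurable
      (Eventually.of_forall fun y => ?_)
    rw [Real.norm_eq_abs, abs_of_nonneg (by
      have := Hs_nonneg s (HS.dl y a)
      have := Hs_nonneg s (HS.dl y b)
      positivity)]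
    simp only [Pi.add_apply]
    nlinarith [sq_nonneg (√(kw α y) * Hs s (HS.dl y a) - √(kw β y) * Hs s (HS.dl y b)),
      sq_nonneg (√(kw α y) * Hs s (HS.dl y a)), sq_nonneg (√(kw β y) * Hs s (HS.dl y b))]
  simp_rw [ef]
  refine ⟨iab, ?_⟩
  have h := integral_mul_sq_le ia ib iab
  simp_rw [hf] at h
  rw [e1, e2] at h
  have hck1 := ck_pos hα (by linarith)
  have hck2 := ck_pos hβ (by linarith)
  refine abs_le_of_sq_le_sq' ?_ (by
    have := Hs_nonneg (s + α) a
    have := Hs_nonneg (s + β) b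
    positivity) |>.2
  rw [mul_pow, Real.sq_sqrt (by positivity), mul_pow, Hs_sq, Hs_sq]
  linarith

/-- **The bound of the carré du champ form.** -/
theorem gam_bound {s α β : ℝ} (hs0 : 0 ≤ s) (hs1 : s ≤ 1) (hα : 0 < α) (hβ : 0 < β)
    (hαβ : α + β = 1) : ∃ C : ℝ, 0 ≤ C ∧ ∀ (a b c : K3 → ℂ) (B G : ℝ), Rap a → Rap b → Rap c →
      0 ≤ B → 0 ≤ G → Mb s B G c →
      ‖Gam a b c‖ ≤ C * (B * (Hs (s + α) a * Hs (s + β) b) + G * (Hs (1 / 2) a * Hs (1 / 2) b)) := by
  have hc0 := ck_pos (a := 1 / 2) (by norm_num) (by norm_num)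
  set C1 := √(ck α * ck β) with hC1
  set C2 := √(ck (1 / 2) * ck (1 / 2)) with hC2
  have hC10 : 0 ≤ C1 := Real.sqrt_nonneg _
  have hC20 : 0 ≤ C2 := Real.sqrt_nonneg _
  refine ⟨2 / ck (1 / 2) * (C1 + C2), by positivity, fun a b c B G ha hb hc hB hG hM => ?_⟩
  obtain ⟨j1, b1⟩ := int_cs ha hb hs0 hα hβ hαβ hs1
  obtain ⟨j2, b2⟩ := int_cs (s := 0) (α := 1 / 2) (β := 1 / 2) ha hb le_rfl (by norm_num)
    (by norm_num) (by norm_num) (by norm_num)
  rw [zero_add] at b2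
  have h1 := gam_eq ha hb hc
  have h2 : ‖∫ y : V, (kw (1 / 2) y : ℂ) * Tri (HS.dl y a) (HS.dl y b) c‖
      ≤ ∫ y : V, (B * (kw (1 / 2) y * (Hs s (HS.dl y a) * Hs s (HS.dl y b)))
        + G * (kw (1 / 2) y * (Hs 0 (HS.dl y a) * Hs 0 (HS.dl y b)))) := by
    refine norm_integral_le_of_norm_le ((j1.const_mul B).add (j2.const_mul G))
      (Eventually.of_forall fun y => ?_)
    rw [norm_mul, Complex.norm_real, Real.norm_eq_abs, abs_of_nonneg (kw_nonneg _ _)]
    have h3 := hM _ _ (rap_dl ha y) (rap_dl hb y) (dl_zero y a) (dl_zero y b)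
    have h4 := mul_le_mul_of_nonneg_left h3 (kw_nonneg (1 / 2) y)
    refine h4.trans (le_of_eq ?_)
    ring
  rw [← h1, norm_mul, Complex.norm_real, Real.norm_eq_abs, abs_of_pos (by positivity),
    integral_add (j1.const_mul B) (j2.const_mul G), integral_const_mul, integral_const_mul] at h2
  have h3 := mul_le_mul_of_nonneg_left b1 hB
  have h4 := mul_le_mul_of_nonneg_left b2 hG
  have n1 : 0 ≤ B * (Hs (s + α) a * Hs (s + β) b) :=
    mul_nonneg hB (mul_nonneg (Hs_nonneg _ _) (Hs_nonneg _ _))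
  have n2 : 0 ≤ G * (Hs (1 / 2) a * Hs (1 / 2) b) :=
    mul_nonneg hG (mul_nonneg (Hs_nonneg _ _) (Hs_nonneg _ _))
  have h5 : ck (1 / 2) / 2 * ‖Gam a b c‖ ≤ (C1 + C2) * (B * (Hs (s + α) a * Hs (s + β) b)
      + G * (Hs (1 / 2) a * Hs (1 / 2) b)) := by
    have e : (C1 + C2) * (B * (Hs (s + α) a * Hs (s + β) b)
      + G * (Hs (1 / 2) a * Hs (1 / 2) b))
      = B * (C1 * (Hs (s + α) a * Hs (s + β) b)) + G * (C2 * (Hs (1 / 2) a * Hs (1 / 2) b))
        + C2 * (B * (Hs (s + α) a * Hs (s + β) b)) + C1 * (G * (Hs (1 / 2) a * Hs (1 / 2) b)) := by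
      ring
    rw [e]
    have n3 := mul_nonneg hC20 n1
    have n4 := mul_nonneg hC10 n2
    linarith
  calc ‖Gam a b c‖ = 2 / ck (1 / 2) * (ck (1 / 2) / 2 * ‖Gam a b c‖) := by field_simp
    _ ≤ 2 / ck (1 / 2) * ((C1 + C2) * (B * (Hs (s + α) a * Hs (s + β) b)
      + G * (Hs (1 / 2) a * Hs (1 / 2) b))) := by gcongr
    _ = _ := by ring

end Pool.Agent.TH300.HS
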