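import Pool.Agent.TH300.HS.Dec

/-!
The production of a field which is an eigenfield of the normalized curl vanishes.
-/

set_option autoImplicit false

open MeasureTheory Set Filter Topology
open H459R3.NS Pool.Agent.TH305.FB

namespace Pool.Agent.TH300.HS

theorem tri_smul1 (z : ℂ) (a b c : K3 → ℂ) : Tri (fun k => z * a k) b c = z * Tri a b c := by
  unfold Tri
  rw [← tsum_mul_left]
  exact tsum_congr fun p => by ring

theorem tri_smul2 (z : ℂ) (a b c : K3 → ℂ) : Tri a (fun k => z * b k) c = z * Tri a b c := by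
  rw [tri_comm12, tri_smul1, tri_comm12]

theorem tri_smul3 (z : ℂ) (a b c : K3 → ℂ) : Tri a b (fun k => z * c k) = z * Tri a b c := by
  rw [tri_comm23, tri_smul2, tri_comm23]

theorem rap_sub {x y : K3 → ℂ} (hx : Rap x) (hy : Rap y) : Rap (x - y) := by
  intro n
  refine Summable.of_nonneg_of_le (fun k => by positivity) (fun k => ?_) ((hx n).add (hy n))
  rw [Pi.sub_apply, ← mul_add]
  gcongr
  exact norm_sub_le _ _

theorem tri_sub3 {a b c c' : K3 → ℂ} (ha : Rap a) (hb : Rap b) (hc : Rap c)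
    (hc' : Rap c') : Tri a b (c - c') = Tri a b c - Tri a b c' := by
  have h := tri_add3 ha.summable hb.summable (rap_sub hc hc').summable hc'.summable
  rw [sub_add_cancel] at h
  rw [h]
  ring

theorem tri_sub2 {a b b' c : K3 → ℂ} (ha : Rap a) (hb : Rap b) (hb' : Rap b')
    (hc : Rap c) : Tri a (b - b') c = Tri a b c - Tri a b' c := by
  rw [tri_comm23, tri_sub3 ha hc hb hb', tri_comm23 a c, tri_comm23 a c]

/-- Curl. -/
noncomputable def cl (V : Fin 3 → K3 → ℂ) (i : Fin 3) : K3 → ℂ :=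
  D (i + 1) (V (i + 2)) - D (i + 2) (V (i + 1))

variable {V : Fin 3 → K3 → ℂ}

theorem rap_cl (hV : ∀ i, Rap (V i)) (i : Fin 3) : Rap (cl V i) :=
  rap_sub ((hV _).D _) ((hV _).D _)

theorem D_comm (i j : Fin 3) (a : K3 → ℂ) : D i (D j a) = D j (D i a) := by
  funext k
  simp only [D]
  ring

theorem D_sub (j : Fin 3) (a b : K3 → ℂ) : D j (a - b) = D j a - D j b := by
  funext k
  simp only [D, Pi.sub_apply]
  ring

theorem div_cl (hV : ∀ i, Rap (V i)) {a b : K3 → ℂ} (ha : Rap a) (hb : Rap b) :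
    ∑ i, Tri a b (D i (cl V i)) = 0 := by
  simp only [Fin.sum_univ_three, cl, D_sub]
  have e0 : (0 : Fin 3) + 1 = 1 := rfl
  have e1 : (0 : Fin 3) + 2 = 2 := rfl
  have e2 : (1 : Fin 3) + 1 = 2 := rfl
  have e3 : (1 : Fin 3) + 2 = 0 := rfl
  have e4 : (2 : Fin 3) + 1 = 0 := rfl
  have e5 : (2 : Fin 3) + 2 = 1 := rfl
  rw [e0, e1, e2, e3, e4, e5]
  have r := fun i j l => ((hV i).D j).D l
  rw [tri_sub3 ha hb (r _ _ _) (r _ _ _), tri_sub3 ha hb (r _ _ _) (r _ _ _),
    tri_sub3 ha hb (r _ _ _) (r _ _ _), D_comm 1 0 (V 2), D_comm 2 0 (V 1), D_comm 2 1 (V 0)]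
  ring

/-- `∫ (V · ∇) V · curl V = 0`. -/
theorem conv_cl (hV : ∀ i, Rap (V i)) :
    ∑ i, ∑ j, Tri (V j) (D j (V i)) (cl V i) = 0 := by
  have h1 : ∑ i, ∑ j, Tri (V j) (D i (V j)) (cl V i) = 0 := by
    rw [Finset.sum_comm]
    refine Finset.sum_eq_zero fun j _ => ?_
    have h2 : ∀ i, Tri (V j) (D i (V j)) (cl V i) = -(1 / 2) * Tri (V j) (V j) (D i (cl V i)) := by
      intro i
      have h3 := tri_D3 (hV j) (hV j) (rap_cl hV i) i
      rw [tri_comm12 (D i (V j))] at h3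
      rw [h3]
      ring
    simp_rw [h2]
    rw [← Finset.mul_sum, div_cl hV (hV j) (hV j), mul_zero]
  have h2 : ∑ i, ∑ j, (Tri (V j) (D j (V i)) (cl V i) - Tri (V j) (D i (V j)) (cl V i)) = 0 := by
    have h3 : ∀ i j, Tri (V j) (D j (V i)) (cl V i) - Tri (V j) (D i (V j)) (cl V i)
        = Tri (V j) (D j (V i) - D i (V j)) (cl V i) := fun i j =>
      (tri_sub2 (hV j) ((hV i).D j) ((hV j).D i) (rap_cl hV i)).symm
    have hz : ∀ (a c : K3 → ℂ), Tri a (0 : K3 → ℂ) c = 0 := by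
      intro a c
      unfold Tri
      simp
    have hneg : ∀ (a b c : K3 → ℂ), Tri a (-b) c = -Tri a b c := by
      intro a b c
      have : (-b) = fun k => (-1 : ℂ) * b k := by funext k; simp
      rw [this, tri_smul2]
      ring
    have c0 : cl V 0 = D 1 (V 2) - D 2 (V 1) := rfl
    have c1 : cl V 1 = D 2 (V 0) - D 0 (V 2) := rfl
    have c2 : cl V 2 = D 0 (V 1) - D 1 (V 0) := rfl
    have d01 : D 1 (V 0) - D 0 (V 1) = -cl V 2 := by rw [c2]; abel
    have d12 : D 2 (V 1) - D 1 (V 2) = -cl V 0 := by rw [c0]; abel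
    have d20 : D 0 (V 2) - D 2 (V 0) = -cl V 1 := by rw [c1]; abel
    simp_rw [h3]
    simp only [Fin.sum_univ_three, sub_self, hz]
    rw [d01, d12, d20, ← c0, ← c1, ← c2, hneg, hneg, hneg, tri_comm23 (V 1) (cl V 2) (cl V 0),
      tri_comm23 (V 2) (cl V 1) (cl V 0), tri_comm23 (V 0) (cl V 2) (cl V 1)]
    ring
  simp_rw [Finset.sum_sub_distrib] at h2
  rw [h1, sub_zero] at h2
  exact h2

/-- **The production of an eigenfield of the normalized curl vanishes.** -/
theorem nn_zero (hV : ∀ i, Rap (V i)) {z : ℂ}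
    (h : ∀ i k, Lam (V i) k = z * cl V i k) : NN V V V = 0 := by
  unfold NN
  have h1 : ∀ i, Lam (V i) = fun k => z * cl V i k := fun i => funext (h i)
  simp_rw [h1, tri_smul3]
  simp_rw [← Finset.mul_sum]
  rw [conv_cl hV, mul_zero]

end Pool.Agent.TH300.HS
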