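import Pool.Agent.TH300.HS.Gam

/-!
Interpolation and elementary properties of the Sobolev norms of sequences.
-/

set_option autoImplicit false

open MeasureTheory Set Filter Topology
open H459R3.NS Pool.Agent.TH305.FB

namespace Pool.Agent.TH300.HS

theorem hs_interp {a : K3 → ℂ} (ha : Rap a) {σ : ℝ} (h1 : 1 / 2 ≤ σ) (h2 : σ ≤ 3 / 2) :
    hs σ a ≤ hs (1 / 2) a ^ (3 / 2 - σ) * hs (3 / 2) a ^ (σ - 1 / 2) := by
  rcases h1.eq_or_lt with h | h1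
  · rw [← h]; norm_num
  rcases h2.eq_or_lt with h | h2
  · rw [h]; norm_num
  set t1 := 3 / 2 - σ with ht1
  set t2 := σ - 1 / 2 with ht2
  have p1 : 0 < t1 := by rw [ht1]; linarith
  have p2 : 0 < t2 := by rw [ht2]; linarith
  have hpq : (1 / t1).HolderConjugate (1 / t2) := by
    rw [Real.holderConjugate_iff]
    constructor
    · rw [lt_div_iff₀ p1]; linarith
    · rw [one_div, one_div, inv_inv, inv_inv]; linarith
  have n1 : ∀ k, 0 ≤ en k ^ (2 * (1 / 2 : ℝ)) * ‖a k‖ ^ 2 := fun k => hs_term_nonneg _ a k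
  have n3 : ∀ k, 0 ≤ en k ^ (2 * (3 / 2 : ℝ)) * ‖a k‖ ^ 2 := fun k => hs_term_nonneg _ a k
  have e1 : ∀ k, ((en k ^ (2 * (1 / 2 : ℝ)) * ‖a k‖ ^ 2) ^ t1) ^ (1 / t1)
      = en k ^ (2 * (1 / 2 : ℝ)) * ‖a k‖ ^ 2 := fun k => by
    rw [← Real.rpow_mul (n1 k), mul_one_div_cancel p1.ne', Real.rpow_one]
  have e3 : ∀ k, ((en k ^ (2 * (3 / 2 : ℝ)) * ‖a k‖ ^ 2) ^ t2) ^ (1 / t2)
      = en k ^ (2 * (3 / 2 : ℝ)) * ‖a k‖ ^ 2 := fun k => by
    rw [← Real.rpow_mul (n3 k), mul_one_div_cancel p2.ne', Real.rpow_one]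
  have h := Real.inner_le_Lp_mul_Lq_tsum_of_nonneg hpq
    (f := fun k => (en k ^ (2 * (1 / 2 : ℝ)) * ‖a k‖ ^ 2) ^ t1)
    (g := fun k => (en k ^ (2 * (3 / 2 : ℝ)) * ‖a k‖ ^ 2) ^ t2)
    (fun k => Real.rpow_nonneg (n1 k) _) (fun k => Real.rpow_nonneg (n3 k) _)
    (by simp_rw [e1]; exact hs_summable ha (by norm_num) (by norm_num))
    (by simp_rw [e3]; exact hs_summable ha (by norm_num) (by norm_num))
  simp_rw [e1, e3] at h
  rw [one_div_one_div, one_div_one_div] at h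
  refine le_trans (le_of_eq ?_) h
  unfold hs
  refine tsum_congr fun k => ?_
  rcases eq_or_ne k 0 with hk | hk
  · have z1 : (0 : ℝ) ^ (2 * σ) = 0 := Real.zero_rpow (by linarith)
    have z2 : (0 : ℝ) ^ (2 * (1 / 2 : ℝ)) = 0 := Real.zero_rpow (by norm_num)
    rw [hk, en_zero, z1, z2, zero_mul, Real.zero_rpow p1.ne', zero_mul]
  · have hp := en_pos hk
    have hn : 0 ≤ ‖a k‖ ^ 2 := sq_nonneg _
    rw [Real.mul_rpow (en_rpow_nonneg _ _) hn, Real.mul_rpow (en_rpow_nonneg _ _) hn,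
      ← Real.rpow_mul hp.le, ← Real.rpow_mul hp.le]
    have e5 : en k ^ (2 * σ) = en k ^ (2 * (1 / 2 : ℝ) * t1) * en k ^ (2 * (3 / 2 : ℝ) * t2) := by
      rw [← Real.rpow_add hp]
      congr 1
      rw [ht1, ht2]
      ring
    rcases hn.eq_or_lt with h0 | h0
    · rw [← h0, Real.zero_rpow p1.ne']; ring
    · have e6 : ‖a k‖ ^ 2 = (‖a k‖ ^ 2) ^ t1 * (‖a k‖ ^ 2) ^ t2 := by
        rw [← Real.rpow_add h0]
        have : t1 + t2 = 1 := by rw [ht1, ht2]; ring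
        rw [this, Real.rpow_one]
      rw [e5]
      nth_rewrite 1 [e6]
      ring

theorem Hs_interp {a : K3 → ℂ} (ha : Rap a) {σ X Y : ℝ} (h1 : 1 / 2 ≤ σ) (h2 : σ ≤ 3 / 2)
    (hX : Hs (1 / 2) a ≤ X) (hY : Hs (3 / 2) a ≤ Y) :
    Hs σ a ≤ X ^ (3 / 2 - σ) * Y ^ (σ - 1 / 2) := by
  have hX0 : 0 ≤ X := (Hs_nonneg _ _).trans hX
  have hY0 : 0 ≤ Y := (Hs_nonneg _ _).trans hY
  have h3 := hs_interp ha h1 h2
  have h4 : hs (1 / 2) a ≤ X ^ 2 := by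
    rw [← Hs_sq]
    have := Hs_nonneg (1 / 2) a
    gcongr
  have h5 : hs (3 / 2) a ≤ Y ^ 2 := by
    rw [← Hs_sq]
    have := Hs_nonneg (3 / 2) a
    gcongr
  unfold Hs
  rw [Real.sqrt_le_left (by positivity)]
  refine h3.trans ?_
  have n1 := hs_nonneg (1 / 2) a
  have n2 := hs_nonneg (3 / 2) a
  calc hs (1 / 2) a ^ (3 / 2 - σ) * hs (3 / 2) a ^ (σ - 1 / 2)
      ≤ (X ^ 2) ^ (3 / 2 - σ) * (Y ^ 2) ^ (σ - 1 / 2) :=
        mul_le_mul (Real.rpow_le_rpow n1 h4 (by linarith)) (Real.rpow_le_rpow n2 h5 (by linarith))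
          (Real.rpow_nonneg n2 _) (Real.rpow_nonneg (sq_nonneg _) _)
    _ = (X ^ (3 / 2 - σ) * Y ^ (σ - 1 / 2)) ^ 2 := by
        rw [mul_pow, ← Real.rpow_natCast X, ← Real.rpow_natCast Y, ← Real.rpow_mul hX0,
          ← Real.rpow_mul hY0, ← Real.rpow_natCast (X ^ (3 / 2 - σ)),
          ← Real.rpow_natCast (Y ^ (σ - 1 / 2)), ← Real.rpow_mul hX0, ← Real.rpow_mul hY0]
        congr 2 <;> ring

theorem Hs_Lam {a : K3 → ℂ} {s : ℝ} (hs0 : 0 ≤ s) : Hs s (Lam a) = Hs (1 + s) a := by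
  unfold Hs hs
  congr 1
  refine tsum_congr fun k => ?_
  rw [norm_Lam]
  rcases eq_or_ne k 0 with h | h
  · have z1 : (0 : ℝ) ^ (2 * (1 + s)) = 0 := Real.zero_rpow (by linarith)
    rw [h, en_zero, z1]
    ring
  · have hp := en_pos h
    have : en k ^ (2 * (1 + s)) = en k ^ (2 * s) * en k ^ 2 := by
      rw [← Real.rpow_natCast, ← Real.rpow_add hp]
      congr 1
      push_cast
      ring
    rw [this]
    ring

theorem norm_D_le_en (j : Fin 3) (a : K3 → ℂ) (k : K3) :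
    ‖D j a k‖ ≤ 2 * Real.pi * ‖Lam a k‖ := by
  rw [norm_Lam]
  refine (norm_D_le j a k).trans ?_
  have := N_le_en k
  have := Real.pi_pos
  gcongr

theorem Hs_mono_mul {a b : K3 → ℂ} {c s : ℝ} (hc : 0 ≤ c) (hb : Rap b) (ha : Rap a) (hs0 : 0 ≤ s)
    (hs2 : s ≤ 2) (h : ∀ k, ‖a k‖ ≤ c * ‖b k‖) : Hs s a ≤ c * Hs s b := by
  unfold Hs
  rw [Real.sqrt_le_left (mul_nonneg hc (Real.sqrt_nonneg _)), mul_pow, Real.sq_sqrt (hs_nonneg s b)]
  unfold hs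
  rw [← tsum_mul_left]
  refine Summable.tsum_le_tsum (fun k => ?_) (hs_summable ha hs0 hs2)
    ((hs_summable hb hs0 hs2).mul_left _)
  have h1 := h k
  have h2 := en_rpow_nonneg (2 * s) k
  calc en k ^ (2 * s) * ‖a k‖ ^ 2 ≤ en k ^ (2 * s) * (c * ‖b k‖) ^ 2 := by gcongr
    _ = _ := by ring

theorem Hs_D {a : K3 → ℂ} (ha : Rap a) {s : ℝ} (hs0 : 0 ≤ s) (hs2 : s ≤ 1) (j : Fin 3) :
    Hs s (D j a) ≤ 2 * Real.pi * Hs (1 + s) a := by
  rw [← Hs_Lam hs0]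
  exact Hs_mono_mul (by positivity) (rap_Lam ha) (ha.D j) hs0 (by linarith)
    (norm_D_le_en j a)

end Pool.Agent.TH300.HS
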