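import Mathlib

/-!
The kernel `|y| ^ (-(3 + 2 a))` on the three-dimensional Euclidean space and the function
`1 - cos`.
-/

set_option autoImplicit false

open MeasureTheory Set Filter Topology
open scoped RealInnerProductSpace

namespace Pool.Agent.TH300.HS

/-- Three-dimensional Euclidean space. -/
abbrev E3 := EuclideanSpace ℝ (Fin 3)

/-- The integrand. -/
noncomputable def gk (a : ℝ) (κ y : E3) : ℝ :=
  ‖y‖ ^ (-(3 + 2 * a)) * (1 - Real.cos ⟪κ, y⟫)

theorem gk_nonneg (a : ℝ) (κ y : E3) : 0 ≤ gk a κ y :=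
  mul_nonneg (Real.rpow_nonneg (norm_nonneg _) _) (by linarith [Real.cos_le_one ⟪κ, y⟫])

/-- The radial majorant. -/
noncomputable def mk (a M r : ℝ) : ℝ := r ^ (-(3 + 2 * a)) * min 2 (M * r ^ 2)

theorem gk_le (a : ℝ) (κ y : E3) : gk a κ y ≤ mk a (‖κ‖ ^ 2 / 2) ‖y‖ := by
  unfold gk mk
  refine mul_le_mul_of_nonneg_left (le_min ?_ ?_) (Real.rpow_nonneg (norm_nonneg _) _)
  · linarith [Real.neg_one_le_cos ⟪κ, y⟫]
  · have h1 := Real.one_sub_sq_div_two_le_cos (x := ⟪κ, y⟫)
    have h2 : ⟪κ, y⟫ ^ 2 ≤ (‖κ‖ * ‖y‖) ^ 2 := by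
      rw [← sq_abs]
      gcongr
      exact abs_real_inner_le_norm κ y
    nlinarith

theorem mk_int {a : ℝ} (ha0 : 0 < a) (ha1 : a < 1) {M : ℝ} (hM : 0 ≤ M) :
    Integrable (fun y : E3 => mk a M ‖y‖) := by
  rw [integrable_fun_norm_addHaar (volume : Measure E3) (f := mk a M)]
  have hfin : Module.finrank ℝ E3 = 3 := by simp [E3]
  rw [hfin]
  rw [← Ioc_union_Ioi_eq_Ioi (zero_le_one' ℝ)]
  have e : ∀ r : ℝ, 0 < r → r ^ (3 - 1) • mk a M r = r ^ (-(1 + 2 * a)) * min 2 (M * r ^ 2) := by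
    intro r hr
    unfold mk
    rw [smul_eq_mul, ← mul_assoc]
    congr 1
    rw [← Real.rpow_natCast, ← Real.rpow_add hr]
    congr 1
    push_cast
    ring
  have hmeas : Measurable fun r : ℝ => r ^ (3 - 1) • mk a M r := by
    unfold mk
    fun_prop
  refine IntegrableOn.union ?_ ?_
  · have h1 : IntegrableOn (fun r : ℝ => M * r ^ (1 - 2 * a)) (Ioc 0 1) := by
      refine Integrable.const_mul ?_ _
      have := intervalIntegral.intervalIntegrable_rpow' (a := 0) (b := 1) (r := 1 - 2 * a)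
        (by linarith)
      rwa [intervalIntegrable_iff_integrableOn_Ioc_of_le zero_le_one] at this
    refine Integrable.mono' h1 hmeas.aestronglyMeasurable.restrict ?_
    filter_upwards [ae_restrict_mem measurableSet_Ioc] with r hr
    rw [e r hr.1, Real.norm_eq_abs, abs_of_nonneg (mul_nonneg (Real.rpow_nonneg hr.1.le _)
      (le_min (by norm_num) (by positivity)))]
    calc r ^ (-(1 + 2 * a)) * min 2 (M * r ^ 2) ≤ r ^ (-(1 + 2 * a)) * (M * r ^ 2) := by
          gcongr
          · exact Real.rpow_nonneg hr.1.le _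
          · exact min_le_right _ _
      _ = M * (r ^ (-(1 + 2 * a)) * r ^ (2 : ℝ)) := by
          rw [Real.rpow_two]; ring
      _ = M * r ^ (1 - 2 * a) := by
          rw [← Real.rpow_add hr.1]
          congr 2
          ring
  · have h1 : IntegrableOn (fun r : ℝ => 2 * r ^ (-(1 + 2 * a))) (Ioi 1) :=
      (integrableOn_Ioi_rpow_of_lt (by linarith) one_pos).const_mul _
    refine Integrable.mono' h1 hmeas.aestronglyMeasurable.restrict ?_
    filter_upwards [ae_restrict_mem measurableSet_Ioi] with r hr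
    have hr0 : 0 < r := one_pos.trans hr
    rw [e r hr0, Real.norm_eq_abs, abs_of_nonneg (mul_nonneg (Real.rpow_nonneg hr0.le _)
      (le_min (by norm_num) (by positivity)))]
    have : min 2 (M * r ^ 2) ≤ 2 := min_le_left _ _
    have h2 : 0 ≤ r ^ (-(1 + 2 * a)) := Real.rpow_nonneg hr0.le _
    nlinarith

theorem gk_meas (a : ℝ) (κ : E3) : Measurable (gk a κ) := by
  unfold gk
  fun_prop

theorem gk_int {a : ℝ} (ha0 : 0 < a) (ha1 : a < 1) (κ : E3) : Integrable (gk a κ) := by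
  refine (mk_int ha0 ha1 (M := ‖κ‖ ^ 2 / 2) (by positivity)).mono'
    (gk_meas a κ).aestronglyMeasurable (Eventually.of_forall fun y => ?_)
  rw [Real.norm_eq_abs, abs_of_nonneg (gk_nonneg a κ y)]
  exact gk_le a κ y

/-- The integral. -/
noncomputable def Ik (a : ℝ) (κ : E3) : ℝ := ∫ y, gk a κ y

theorem Ik_rot (a : ℝ) {κ κ' : E3} (h : ‖κ‖ = ‖κ'‖) : Ik a κ = Ik a κ' := by
  unfold Ik
  set R := (Submodule.span ℝ {κ - κ'})ᗮ.reflection with hR
  have hR1 : R κ = κ' := Submodule.reflection_sub h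
  have h1 : MeasurePreserving (R : E3 → E3) volume volume := R.measurePreserving
  rw [← h1.integral_comp R.toHomeomorph.measurableEmbedding (gk a κ')]
  congr 1
  funext y
  unfold gk
  rw [← hR1, LinearIsometryEquiv.norm_map, LinearIsometryEquiv.inner_map_map]

theorem Ik_scale (a : ℝ) {t : ℝ} (ht : 0 < t) (κ : E3) : Ik a (t • κ) = t ^ (2 * a) * Ik a κ := by
  unfold Ik
  have h1 := Measure.integral_comp_smul_of_nonneg (volume : Measure E3) (gk a κ) t (hR := ht.le)
  have hfin : Module.finrank ℝ E3 = 3 := by simp [E3]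
  rw [hfin, smul_eq_mul] at h1
  have h2 : ∀ y, gk a (t • κ) y = t ^ (3 + 2 * a) * gk a κ (t • y) := by
    intro y
    unfold gk
    rw [norm_smul, Real.norm_eq_abs, abs_of_pos ht, Real.mul_rpow ht.le (norm_nonneg _),
      real_inner_smul_left, real_inner_smul_right]
    have : t ^ (3 + 2 * a) * t ^ (-(3 + 2 * a)) = 1 := by
      rw [← Real.rpow_add ht]
      simp
    calc ‖y‖ ^ (-(3 + 2 * a)) * (1 - Real.cos (t * ⟪κ, y⟫))
        = (t ^ (3 + 2 * a) * t ^ (-(3 + 2 * a))) * (‖y‖ ^ (-(3 + 2 * a)) *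
          (1 - Real.cos (t * ⟪κ, y⟫))) := by rw [this, one_mul]
      _ = _ := by ring
  simp_rw [h2]
  rw [integral_const_mul, h1, ← mul_assoc]
  congr 1
  rw [← Real.rpow_natCast, ← Real.rpow_neg ht.le, ← Real.rpow_add ht]
  congr 1
  push_cast
  ring

/-- The unit vector. -/
noncomputable def e0 : E3 := EuclideanSpace.single 0 1

theorem norm_e0 : ‖e0‖ = 1 := by simp [e0]

theorem Ik_eq {a : ℝ} (ha0 : 0 < a) (κ : E3) : Ik a κ = Ik a e0 * ‖κ‖ ^ (2 * a) := by
  rcases eq_or_ne κ 0 with h | h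
  · subst h
    have : ∀ y, gk a 0 y = 0 := fun y => by simp [gk]
    unfold Ik
    simp_rw [this]
    rw [norm_zero, Real.zero_rpow (by linarith)]
    simp
  · have hk : 0 < ‖κ‖ := norm_pos_iff.2 h
    have h1 : ‖κ‖ = ‖‖κ‖ • e0‖ := by rw [norm_smul, norm_e0, mul_one, norm_norm]
    rw [Ik_rot a h1, Ik_scale a hk, mul_comm]

theorem Ik_pos {a : ℝ} (ha0 : 0 < a) (ha1 : a < 1) : 0 < Ik a e0 := by
  unfold Ik
  rw [integral_pos_iff_support_of_nonneg (gk_nonneg a e0) (gk_int ha0 ha1 e0)]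
  have h1 : Metric.ball e0 (1 / 2) ⊆ Function.support (gk a e0) := by
    intro y hy
    rw [Metric.mem_ball, dist_eq_norm] at hy
    rw [Function.mem_support]
    have h2 : |y 0 - 1| ≤ ‖y - e0‖ := by
      have := PiLp.norm_apply_le (y - e0) 0
      simpa [e0] using this
    have h3 := abs_lt.1 (h2.trans_lt hy)
    have h4 : ⟪e0, y⟫ = y 0 := by
      rw [e0, EuclideanSpace.inner_single_left]
      simp
    have hy0 : y ≠ 0 := by
      rintro rfl
      simp at h3
      linarith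
    have h5 : Real.cos (y 0) < 1 := by
      have h6 : Real.cos (y 0) < Real.cos 0 := by
        refine Real.cos_lt_cos_of_nonneg_of_le_pi le_rfl ?_ (by linarith)
        have := Real.pi_gt_three
        linarith
      rwa [Real.cos_zero] at h6
    unfold gk
    rw [h4]
    have h7 : 0 < ‖y‖ ^ (-(3 + 2 * a)) := Real.rpow_pos_of_pos (norm_pos_iff.2 hy0) _
    exact (mul_pos h7 (by linarith)).ne'
  exact lt_of_lt_of_le (Metric.measure_ball_pos volume e0 (by norm_num)) (measure_mono h1)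

end Pool.Agent.TH300.HS
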