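import Pool.Agent.TH300.HS.Ker
import Pool.Agent.TH305.FB.NSf

/-!
The kernel on `Fin 3 → ℝ` and characters; the carré du champ of `|k|`.
-/

set_option autoImplicit false

open MeasureTheory Set Filter Topology
open scoped RealInnerProductSpace
open H459R3.NS Pool.Agent.TH305.FB

namespace Pool.Agent.TH300.HS

/-- The Euclidean length of a frequency. -/
noncomputable def en (k : K3) : ℝ := Real.sqrt (nk2 k)

theorem en_nonneg (k : K3) : 0 ≤ en k := Real.sqrt_nonneg _

theorem en_sq (k : K3) : en k ^ 2 = nk2 k := Real.sq_sqrt (nk2_nonneg k)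

/-- The vector in the Euclidean space. -/
noncomputable def kv (k : K3) : E3 := WithLp.toLp 2 fun j => 2 * Real.pi * (k j : ℝ)

/-- The Euclidean length of a vector. -/
noncomputable def eu (y : V) : ℝ := ‖(WithLp.toLp 2 y : E3)‖

theorem norm_kv (k : K3) : ‖kv k‖ = 2 * Real.pi * en k := by
  unfold kv en nk2
  rw [EuclideanSpace.norm_eq]
  have h : ∀ j, ‖(WithLp.toLp 2 (fun j => 2 * Real.pi * (k j : ℝ)) : E3) j‖ ^ 2
      = (2 * Real.pi) ^ 2 * (k j : ℝ) ^ 2 := by
    intro j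
    rw [Real.norm_eq_abs, sq_abs]
    show (2 * Real.pi * (k j : ℝ)) ^ 2 = _
    ring
  simp_rw [h]
  rw [← Finset.mul_sum, Real.sqrt_mul (by positivity), Real.sqrt_sq (by positivity)]

theorem inner_kv (k : K3) (y : V) : ⟪kv k, (WithLp.toLp 2 y : E3)⟫ = 2 * Real.pi * ph k y := by
  unfold kv ph
  rw [PiLp.inner_apply, Finset.mul_sum]
  refine Finset.sum_congr rfl fun j _ => ?_
  show ⟪2 * Real.pi * (k j : ℝ), y j⟫ = _
  simp
  ring

/-- The kernel. -/
noncomputable def kw (a : ℝ) (y : V) : ℝ := eu y ^ (-(3 + 2 * a))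

theorem eu_nonneg (y : V) : 0 ≤ eu y := norm_nonneg _

theorem kw_nonneg (a : ℝ) (y : V) : 0 ≤ kw a y := Real.rpow_nonneg (eu_nonneg y) _

theorem eu_meas : Measurable eu := by
  unfold eu
  exact (MeasurableEquiv.toLp 2 (Fin 3 → ℝ)).measurable.norm

theorem kw_meas (a : ℝ) : Measurable (kw a) := by
  unfold kw
  exact eu_meas.pow_const _

theorem ee_eq (k : K3) (y : V) : ee k y = Complex.exp ((2 * Real.pi * ph k y : ℝ) * Complex.I) := by
  unfold ee
  congr 1
  push_cast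
  ring

theorem norm_ee_sub_one_sq (k : K3) (y : V) :
    ‖ee k y - 1‖ ^ 2 = 2 * (1 - Real.cos (2 * Real.pi * ph k y)) := by
  rw [ee_eq, ← Complex.normSq_eq_norm_sq, Complex.normSq_apply]
  rw [Complex.sub_re, Complex.sub_im, Complex.exp_ofReal_mul_I_re, Complex.exp_ofReal_mul_I_im,
    Complex.one_re, Complex.one_im]
  nlinarith [Real.sin_sq_add_cos_sq (2 * Real.pi * ph k y)]

/-- The constant. -/
noncomputable def ck (a : ℝ) : ℝ := 2 * (Ik a e0 * (2 * Real.pi) ^ (2 * a))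

theorem ck_pos {a : ℝ} (ha0 : 0 < a) (ha1 : a < 1) : 0 < ck a := by
  unfold ck
  have := Ik_pos ha0 ha1
  positivity

theorem kw_gk (a : ℝ) (k : K3) (y : V) :
    kw a y * ‖ee k y - 1‖ ^ 2 = 2 * gk a (kv k) (WithLp.toLp 2 y : E3) := by
  rw [norm_ee_sub_one_sq]
  unfold gk kw eu
  rw [inner_kv]
  ring

theorem mp_toLp : MeasurePreserving (fun y : V => (WithLp.toLp 2 y : E3)) volume volume :=
  PiLp.volume_preserving_toLp (Fin 3)

theorem kw_int {a : ℝ} (ha0 : 0 < a) (ha1 : a < 1) (k : K3) :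
    Integrable fun y : V => kw a y * ‖ee k y - 1‖ ^ 2 := by
  simp_rw [kw_gk]
  refine Integrable.const_mul ?_ _
  exact (mp_toLp.integrable_comp_emb (MeasurableEquiv.toLp 2 (Fin 3 → ℝ)).measurableEmbedding
    (g := gk a (kv k))).2 (gk_int ha0 ha1 _)

theorem kw_integral {a : ℝ} (ha0 : 0 < a) (k : K3) :
    ∫ y : V, kw a y * ‖ee k y - 1‖ ^ 2 = ck a * en k ^ (2 * a) := by
  simp_rw [kw_gk]
  rw [integral_const_mul]
  have h := mp_toLp.integral_comp (MeasurableEquiv.toLp 2 (Fin 3 → ℝ)).measurableEmbedding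
    (gk a (kv k))
  rw [h]
  have h2 := Ik_eq ha0 (kv k)
  unfold Ik at h2
  rw [h2, norm_kv, Real.mul_rpow (by positivity) (en_nonneg k)]
  unfold ck Ik
  ring

/-- The kernel of order one. -/
theorem kw_half_int (p q : K3) :
    Integrable fun y : V => (kw (1 / 2) y : ℂ) * ((ee p y - 1) * (ee q y - 1)) := by
  have h1 := (kw_int (a := 1 / 2) (by norm_num) (by norm_num) p).add
    (kw_int (a := 1 / 2) (by norm_num) (by norm_num) q)
  refine h1.mono' ?_ (Eventually.of_forall fun y => ?_)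
  · have m1 : Measurable fun y : V => (kw (1 / 2) y : ℂ) :=
      Complex.measurable_ofReal.comp (kw_meas _)
    have m2 := (ee_continuous p).measurable
    have m3 := (ee_continuous q).measurable
    exact (m1.mul ((m2.sub_const 1).mul (m3.sub_const 1))).aestronglyMeasurable
  · rw [norm_mul, norm_mul, Complex.norm_real, Real.norm_eq_abs, abs_of_nonneg (kw_nonneg _ _)]
    simp only [Pi.add_apply]
    have h2 : ‖ee p y - 1‖ * ‖ee q y - 1‖ ≤ ‖ee p y - 1‖ ^ 2 + ‖ee q y - 1‖ ^ 2 := by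
      nlinarith [sq_nonneg (‖ee p y - 1‖ - ‖ee q y - 1‖), norm_nonneg (ee p y - 1),
        norm_nonneg (ee q y - 1), sq_nonneg ‖ee p y - 1‖, sq_nonneg ‖ee q y - 1‖]
    have := mul_le_mul_of_nonneg_left h2 (kw_nonneg (1 / 2) y)
    linarith

theorem ee_neg_arg (k : K3) (y : V) : ee k (-y) = (starRingEnd ℂ) (ee k y) := by
  have : ee k (-y) = ee (-k) y := by
    unfold ee ph
    congr 2
    simp
  rw [this, ee_neg]

theorem kw_neg (a : ℝ) (y : V) : kw a (-y) = kw a y := by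
  unfold kw eu
  rw [WithLp.toLp_neg, norm_neg]

theorem prod_re (p q : K3) (y : V) : (((ee p y - 1) * (ee q y - 1)).re)
    = (‖ee p y - 1‖ ^ 2 + ‖ee q y - 1‖ ^ 2 - ‖ee (p + q) y - 1‖ ^ 2) / 2 := by
  rw [norm_ee_sub_one_sq, norm_ee_sub_one_sq, norm_ee_sub_one_sq, ph_add_left, ee_eq, ee_eq,
    Complex.mul_re, Complex.sub_re, Complex.sub_im, Complex.sub_re, Complex.sub_im,
    Complex.exp_ofReal_mul_I_re, Complex.exp_ofReal_mul_I_im, Complex.exp_ofReal_mul_I_re,
    Complex.exp_ofReal_mul_I_im, Complex.one_re, Complex.one_im, mul_add, Real.cos_add]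
  ring

/-- **The carré du champ of `|k|`.** -/
theorem kw_half_integral (p q : K3) :
    ∫ y : V, (kw (1 / 2) y : ℂ) * ((ee p y - 1) * (ee q y - 1))
      = ((ck (1 / 2) / 2 * (en p + en q - en (p + q)) : ℝ) : ℂ) := by
  have hi := kw_half_int p q
  have hre : (∫ y : V, (kw (1 / 2) y : ℂ) * ((ee p y - 1) * (ee q y - 1))).re
      = ck (1 / 2) / 2 * (en p + en q - en (p + q)) := by
    have h1 : (∫ y : V, (kw (1 / 2) y : ℂ) * ((ee p y - 1) * (ee q y - 1))).re
        = ∫ y : V, ((kw (1 / 2) y : ℂ) * ((ee p y - 1) * (ee q y - 1))).re :=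
      (integral_re hi).symm
    rw [h1]
    have h2 : ∀ y : V, ((kw (1 / 2) y : ℂ) * ((ee p y - 1) * (ee q y - 1))).re
        = (1 / 2) * ((kw (1 / 2) y * ‖ee p y - 1‖ ^ 2 + kw (1 / 2) y * ‖ee q y - 1‖ ^ 2)
          - kw (1 / 2) y * ‖ee (p + q) y - 1‖ ^ 2) := by
      intro y
      rw [Complex.re_ofReal_mul, prod_re]
      ring
    simp_rw [h2]
    have ip := kw_int (a := 1 / 2) (by norm_num) (by norm_num) p
    have iq := kw_int (a := 1 / 2) (by norm_num) (by norm_num) q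
    have ipq := kw_int (a := 1 / 2) (by norm_num) (by norm_num) (p + q)
    have ipq' : Integrable (fun y : V => kw (1 / 2) y * ‖ee p y - 1‖ ^ 2
      + kw (1 / 2) y * ‖ee q y - 1‖ ^ 2) := ip.add iq
    rw [integral_const_mul, integral_sub ipq' ipq, integral_add ip iq,
      kw_integral (by norm_num), kw_integral (by norm_num), kw_integral (by norm_num)]
    norm_num
    ring
  have him : (∫ y : V, (kw (1 / 2) y : ℂ) * ((ee p y - 1) * (ee q y - 1))).im = 0 := by
    have h1 : ∫ y : V, (kw (1 / 2) y : ℂ) * ((ee p y - 1) * (ee q y - 1))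
        = (starRingEnd ℂ) (∫ y : V, (kw (1 / 2) y : ℂ) * ((ee p y - 1) * (ee q y - 1))) := by
      conv_lhs => rw [← integral_neg_eq_self]
      rw [← integral_conj]
      congr 1
      funext y
      rw [kw_neg, ee_neg_arg, ee_neg_arg]
      simp
    exact Complex.conj_eq_iff_im.1 h1.symm
  exact Complex.ext (by rw [hre, Complex.ofReal_re]) (by rw [him, Complex.ofReal_im])

end Pool.Agent.TH300.HS
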