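import Pool.Agent.TH300.HS.Ev
import Pool.Agent.H459R3.NS.Iso

/-!
The criterion for one helical component.
-/

set_option autoImplicit false

open MeasureTheory Set Filter Topology
open scoped ENNReal
open H459R3.NS Pool.Agent.TH305.FB

namespace Pool.Agent.TH300.HS

variable {ν T : ℝ} {u : ℝ → V → V} {P : ℝ → V → ℝ}

/-- Boundedness from the norm of order one half and the dissipation. -/
theorem bounded_of (hν : 0 < ν) (h : IsSol ν T u P) {M : ℝ}
    (hX : ∀ t ∈ Ico 0 T, XX (uh u t) ≤ M) (hY : IntegrableOn (fun t => YY (uh u t)) (Ioo 0 T)) :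
    ∃ M', ∀ t ∈ Ico 0 T, ∀ x i, |u t x i| ≤ M' := by
  obtain ⟨C, hC0, hC⟩ := four_bound
  have hp3 : (3 : ℝ≥0∞) < 4 := by norm_num
  have hpq : 3 * ((4 : ℝ≥0∞)⁻¹).toReal + 2 / 8 = 1 := by
    rw [ENNReal.toReal_inv]
    norm_num
  obtain ⟨C2, -, hC2⟩ := serrin hp3 hpq hν (K := 0) le_rfl (lam := 0) (κ := 0) le_rfl
    (by norm_num)
  set c : ℝ := √(EE (uh u 0)) + C * √M ^ (3 / 4 : ℝ) with hc
  have hc0 : 0 ≤ c := by positivity
  set β : ℝ → ℝ := fun t => c * (1 + YY (uh u t)) ^ (1 / 8 : ℝ) with hβ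
  have hY1 : ∀ t, 0 ≤ 1 + YY (uh u t) := fun t => by
    have := YY_nonneg (uh u t)
    linarith
  refine (hC2 T 0 u P β (fun _ => 0) h le_rfl (fun t ht => ⟨mul_nonneg hc0
    (Real.rpow_nonneg (hY1 t) _), le_rfl⟩) ?_ integrableOn_zero fun t ht => ?_).2
  · have e : (fun t => β t ^ (8 : ℝ)) = fun t => c ^ (8 : ℝ) * (1 + YY (uh u t)) := by
      funext t
      simp only [hβ]
      rw [Real.mul_rpow hc0 (Real.rpow_nonneg (hY1 t) _), ← Real.rpow_mul (hY1 t)]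
      norm_num
    rw [e]
    have h1 : IntegrableOn (fun _ : ℝ => (1 : ℝ)) (Ioo 0 T) :=
      integrableOn_const (by simp)
    exact (h1.add hY).const_mul _
  · have hI : t ∈ Ico 0 T := ⟨ht.1.le, ht.2⟩
    refine ⟨fun _ => 0, fun _ => 0, ∅, SPV.zero, SPV.zero, dimTwo_empty,
      fun i k _ => fr_zero k, ?_, ?_, ?_, ?_, fun i => ?_⟩
    · rw [enstrophy_zero]; simp
    · have : palin (fun _ => 0) = 0 := by
        unfold palin lap pd
        simp
      rw [this]; simp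
    · rw [enstrophy_zero]; simp
    · have : stretch (fun _ => 0) = 0 := by
        unfold stretch pd
        simp
      rw [this]; simp
    · have e : (fun x => u t x i - (0 : V) i - (0 : V) i) = fun x => u t x i := by
        funext x
        simp
      show eLpNorm (fun x => u t x i - (0 : V) i - (0 : V) i) 4 _ ≤ _
      rw [e]
      refine (hC ν T u P h t hI i).trans (ENNReal.ofReal_le_ofReal ?_)
      have h1 : √(EE (uh u t)) ≤ √(EE (uh u 0)) := Real.sqrt_le_sqrt (EE_le h hν hI)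
      have h2 : √(XX (uh u t)) ≤ √M := Real.sqrt_le_sqrt (hX t hI)
      have h3 : 1 ≤ (1 + YY (uh u t)) ^ (1 / 8 : ℝ) :=
        Real.one_le_rpow (by have := YY_nonneg (uh u t); linarith) (by norm_num)
      have h4 : √(YY (uh u t)) ^ (1 / 4 : ℝ) ≤ (1 + YY (uh u t)) ^ (1 / 8 : ℝ) := by
        rw [Real.sqrt_eq_rpow, ← Real.rpow_mul (YY_nonneg _)]
        have e8 : (1 / 2 * (1 / 4) : ℝ) = 1 / 8 := by norm_num
        rw [e8]
        exact Real.rpow_le_rpow (YY_nonneg _) (by linarith) (by norm_num)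
      have h5 : √(XX (uh u t)) ^ (3 / 4 : ℝ) ≤ √M ^ (3 / 4 : ℝ) :=
        Real.rpow_le_rpow (Real.sqrt_nonneg _) h2 (by norm_num)
      have n1 : 0 ≤ √(XX (uh u t)) ^ (3 / 4 : ℝ) := by positivity
      have n2 : 0 ≤ √(YY (uh u t)) ^ (1 / 4 : ℝ) := by positivity
      have n3 : 0 ≤ √(EE (uh u 0)) := Real.sqrt_nonneg _
      calc √(EE (uh u t)) + C * (√(XX (uh u t)) ^ (3 / 4 : ℝ) * √(YY (uh u t)) ^ (1 / 4 : ℝ))
          ≤ √(EE (uh u 0)) * (1 + YY (uh u t)) ^ (1 / 8 : ℝ)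
            + C * (√M ^ (3 / 4 : ℝ) * (1 + YY (uh u t)) ^ (1 / 8 : ℝ)) := by
            refine add_le_add ?_ ?_
            · nlinarith
            · gcongr
        _ = β t := by
            simp only [hβ, hc]
            ring

/-- **The criterion for one helical component.** -/
theorem helical {p : ℝ≥0∞} (hp3 : 3 < p) {q : ℝ} (hpq : 3 * (p⁻¹).toReal + 2 / q = 1)
    (hν : 0 < ν) : ∃ C : ℝ, 0 ≤ C ∧ ∀ (T : ℝ) (u : ℝ → V → V) (P : ℝ → V → ℝ) (β R : ℝ → ℝ),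
      IsSol ν T u P → (∀ t ∈ Ioo 0 T, 0 ≤ β t ∧ 0 ≤ R t) →
      IntegrableOn (fun t => β t ^ q) (Ioo 0 T) → IntegrableOn (fun t => R t ^ 3) (Ioo 0 T) →
      (∀ t ∈ Ioo 0 T, ∃ σ : ℝ, σ ^ 2 = 1 ∧ ∀ i,
        eLpNorm (S ({k : K3 | R t ≤ en k}.indicator (hp σ (uh u t) i))) p (volume.restrict cube)
          ≤ ENNReal.ofReal (β t)) →
      (∀ t ∈ Ico 0 T, XX (uh u t) ≤ XX (uh u 0) * Real.exp
        (C * ((∫ s in Ioo 0 T, β s ^ q) + energy (u 0) * (T + ∫ s in Ioo 0 T, R s ^ 3)))) ∧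
      ∃ M, ∀ t ∈ Ico 0 T, ∀ x i, |u t x i| ≤ M := by
  have hθ0 := th_nonneg p
  have hθ1 := th_lt_one hp3
  have hq : q = 2 / (1 - th p) := by
    have h1 : 2 / q = 1 - th p := by
      have : th p = 3 * (p⁻¹).toReal := rfl
      rw [this]
      linarith
    rw [← h1]
    have : q ≠ 0 := by
      intro h0
      rw [h0, div_zero] at h1
      linarith
    field_simp
  obtain ⟨C1, hC10, hC1⟩ := prod_bound hp3
  obtain ⟨D, hD0, hD⟩ := young (c := 2 * C1) hθ0 hθ1 hν (by positivity)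
  set D2 : ℝ := 162 * C1 ^ 2 / ν with hD2
  have hD20 : 0 ≤ D2 := by positivity
  refine ⟨D + D2, by positivity, fun T u P β R h hβR hβi hRi hu => ?_⟩
  set E0 := energy (u 0) with hE0
  have hE0n : 0 ≤ E0 := energy_nonneg _
  rcases le_or_gt T 0 with hT | hT
  · refine ⟨fun t ht => absurd (ht.1.trans_lt ht.2) (not_lt.2 hT), 0, fun t ht => ?_⟩
    exact absurd (ht.1.trans_lt ht.2) (not_lt.2 hT)
  have h0T : (0 : ℝ) ∈ Ico 0 T := ⟨le_rfl, hT⟩
  have hc1 : IntegrableOn (fun _ : ℝ => (1 : ℝ)) (Ioo 0 T) := integrableOn_const (by simp)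
  set g : ℝ → ℝ := fun s => D * β s ^ q + D2 * E0 * (1 + R s ^ 3) with hg
  have hgi : IntegrableOn g (Ioo 0 T) :=
    (hβi.const_mul D).add ((hc1.add hRi).const_mul (D2 * E0))
  have hint : ∫ s in Ioo 0 T, g s
      = D * (∫ s in Ioo 0 T, β s ^ q) + D2 * E0 * (T + ∫ s in Ioo 0 T, R s ^ 3) := by
    simp only [hg]
    have i2 : IntegrableOn (fun s => 1 + R s ^ 3) (Ioo 0 T) := hc1.add hRi
    rw [integral_add (hβi.const_mul D) (i2.const_mul (D2 * E0)), integral_const_mul,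
      integral_const_mul, integral_add hc1 hRi]
    congr 3
    simp [hT.le]
  have hb0 : 0 ≤ ∫ s in Ioo 0 T, β s ^ q :=
    setIntegral_nonneg measurableSet_Ioo fun s hs => Real.rpow_nonneg (hβR s hs).1 q
  have hr0 : 0 ≤ ∫ s in Ioo 0 T, R s ^ 3 :=
    setIntegral_nonneg measurableSet_Ioo fun s hs => pow_nonneg (hβR s hs).2 3
  have hg0 : ∀ t ∈ Ioo 0 T, 0 ≤ g t := by
    intro t ht
    have h1 := Real.rpow_nonneg (hβR t ht).1 q
    have h2 := pow_nonneg (hβR t ht).2 3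
    simp only [hg]
    positivity
  have key := gron_diss (F := fun t => XX (uh u t)) (D := fun t => YY (uh u t)) (g := g) (T := T)
    (F' := fun t => -(8 * Real.pi ^ 2 * ν * YY (uh u t))
      - 2 * (NN (uh u t) (uh u t) (uh u t)).re)
    (B := (D + D2) * ((∫ s in Ioo 0 T, β s ^ q) + E0 * (T + ∫ s in Ioo 0 T, R s ^ 3))) hν
    (fun t _ => XX_nonneg _) (fun t _ => YY_nonneg _) (XX_cont h) (YY_cont h)
    (fun t ht => hasDerivAt_XX h ht) hg0 hgi (by
      rw [hint]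
      have h1 := mul_nonneg hD20 hb0
      have h2 := mul_nonneg hD0 (mul_nonneg hE0n (add_nonneg hT.le hr0))
      linarith) ?_
  · refine ⟨key.1, bounded_of hν h (fun t ht => key.1 t ht) key.2⟩
  · intro t ht
    have hI : t ∈ Ico 0 T := ⟨ht.1.le, ht.2⟩
    obtain ⟨σ, hσ, hL⟩ := hu t ht
    have h1 := hC1 (uh u t) σ (R t) (β t) (rap_uh h hI) (div_uh h hI) hσ (hβR t ht).1 hL
    set X := √(XX (uh u t)) with hX
    set Y := √(YY (uh u t)) with hY
    have hX0 : 0 ≤ X := Real.sqrt_nonneg _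
    have hY0 : 0 ≤ Y := Real.sqrt_nonneg _
    have hX2 : XX (uh u t) = X ^ 2 := (Real.sq_sqrt (XX_nonneg _)).symm
    have hY2 : YY (uh u t) = Y ^ 2 := (Real.sq_sqrt (YY_nonneg _)).symm
    have h2 := hD (β t) X Y (hβR t ht).1 hX0 hY0
    rw [← hq] at h2
    have hR0 := (hβR t ht).2
    have hEt : EE (uh u t) ≤ E0 := by
      have := EE_le h hν hI
      rwa [EE_uh h h0T] at this
    have hA : 81 * (max (R t) 1) ^ 3 * EE (uh u t) ≤ 81 * (1 + R t ^ 3) * E0 := by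
      have h3 : (max (R t) 1) ^ 3 ≤ 1 + R t ^ 3 := by
        rcases le_total (R t) 1 with h4 | h4
        · rw [max_eq_right h4]
          have := pow_nonneg hR0 3
          linarith
        · rw [max_eq_left h4]
          linarith
      have h5 := EE_nonneg (uh u t)
      have h6 : (0 : ℝ) ≤ (max (R t) 1) ^ 3 := by positivity
      gcongr
    set A := 81 * (max (R t) 1) ^ 3 * EE (uh u t) with hAdef
    have hA0 : 0 ≤ A := by
      have := EE_nonneg (uh u t)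
      positivity
    have h3 : 2 * C1 * (√A * (X * Y)) ≤ ν / 2 * Y ^ 2 + 2 * C1 ^ 2 * A / ν * X ^ 2 := by
      have h4 : (√A) ^ 2 = A := Real.sq_sqrt hA0
      have h5 : 0 ≤ (ν * Y - 2 * C1 * √A * X) ^ 2 := sq_nonneg _
      have h6 : ν * (ν / 2 * Y ^ 2 + 2 * C1 ^ 2 * A / ν * X ^ 2)
          = ν ^ 2 / 2 * Y ^ 2 + 2 * C1 ^ 2 * A * X ^ 2 := by
        field_simp
      have h7 : ν * (2 * C1 * (√A * (X * Y))) ≤ ν * (ν / 2 * Y ^ 2 + 2 * C1 ^ 2 * A / ν * X ^ 2) := by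
        rw [h6]
        have h8 : (ν * Y - 2 * C1 * √A * X) ^ 2
            = ν ^ 2 * Y ^ 2 - 4 * ν * C1 * √A * X * Y + 4 * C1 ^ 2 * (√A) ^ 2 * X ^ 2 := by ring
        rw [h8, h4] at h5
        linarith
      exact le_of_mul_le_mul_left h7 hν
    have h4 : 2 * C1 ^ 2 * A / ν ≤ D2 * E0 * (1 + R t ^ 3) := by
      rw [hD2, div_le_iff₀ hν]
      have e : 162 * C1 ^ 2 / ν * E0 * (1 + R t ^ 3) * ν
          = 2 * C1 ^ 2 * (81 * (1 + R t ^ 3) * E0) := by
        field_simp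
        ring
      rw [e]
      gcongr
    have h5 : -(2 * (NN (uh u t) (uh u t) (uh u t)).re)
        ≤ 2 * ‖NN (uh u t) (uh u t) (uh u t)‖ := by
      have := Complex.abs_re_le_norm (NN (uh u t) (uh u t) (uh u t))
      have := neg_abs_le (NN (uh u t) (uh u t) (uh u t)).re
      linarith
    have h6 := mul_le_mul_of_nonneg_right h4 (sq_nonneg X)
    show -(8 * Real.pi ^ 2 * ν * YY (uh u t)) - 2 * (NN (uh u t) (uh u t) (uh u t)).re
      ≤ -(ν * YY (uh u t)) + (D * β t ^ q + D2 * E0 * (1 + R t ^ 3)) * XX (uh u t)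
    rw [hX2, hY2]
    have hpi : 2 ≤ 8 * Real.pi ^ 2 := by
      have := Real.pi_gt_three
      nlinarith
    have h7 : 2 * (ν * Y ^ 2) ≤ 8 * Real.pi ^ 2 * (ν * Y ^ 2) :=
      mul_le_mul_of_nonneg_right hpi (mul_nonneg hν.le (sq_nonneg Y))
    have h8 : 2 * ‖NN (uh u t) (uh u t) (uh u t)‖ ≤ 2 * C1 * (β t * (X ^ (1 - th p) * Y ^ th p * Y))
        + 2 * C1 * (√A * (X * Y)) := by linarith
    linarith

end Pool.Agent.TH300.HS
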