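import Pool.Agent.TH300.HS.Sob2
import Pool.Agent.H459R3.NS.Lp

/-!
Multipliers: the trilinear form with one factor in `L ^ p`.
-/

set_option autoImplicit false

open MeasureTheory Set Filter Topology
open scoped ENNReal
open H459R3.NS Pool.Agent.TH305.FB

namespace Pool.Agent.TH300.HS

/-- `c` is the coefficient sequence of a multiplier. -/
def Mb (s β γ : ℝ) (c : K3 → ℂ) : Prop :=
  ∀ a b : K3 → ℂ, Rap a → Rap b → a 0 = 0 → b 0 = 0 →
    ‖Tri a b c‖ ≤ β * (Hs s a * Hs s b) + γ * (Hs 0 a * Hs 0 b)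

theorem Hs_zero (a : K3 → ℂ) : Hs 0 a = n2 a := by
  unfold Hs n2 hs
  congr 1
  refine tsum_congr fun k => ?_
  rw [mul_zero, Real.rpow_zero, one_mul]

theorem tri_norm_le {a b c : K3 → ℂ} (ha : Summable a) (hb : Summable b) (hc : Summable c) :
    ‖Tri a b c‖ₑ ≤ ∫⁻ x in cube, ‖S c x‖ₑ * (‖S a x‖ₑ * ‖S b x‖ₑ) := by
  rw [tri_eq ha hb hc]
  refine (enorm_integral_le_lintegral_enorm _).trans (le_of_eq ?_)
  congr 1
  funext x
  rw [enorm_mul, enorm_mul]
  ring

theorem eLpNorm_S_two {a : K3 → ℂ} (ha : Summable a) :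
    eLpNorm (S a) 2 (volume.restrict cube) = ENNReal.ofReal (n2 a) := by
  rw [eLpNorm_eq_lintegral_rpow_enorm_toReal (by norm_num) (by norm_num)]
  have e1 : (2 : ℝ≥0∞).toReal = 2 := by norm_num
  rw [e1]
  have h1 : ∫⁻ x in cube, ‖S a x‖ₑ ^ (2 : ℝ) = ENNReal.ofReal (n2 a ^ 2) := by
    have hc : Continuous fun x : V => ‖S a x‖ ^ 2 := (S_continuous ha).norm.pow 2
    rw [← integral_norm_sq ha, ofReal_integral_eq_lintegral_ofReal
      (integrableOn_cube hc) (Eventually.of_forall fun _ => sq_nonneg _)]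
    congr 1
    funext x
    rw [← ofReal_norm, ENNReal.ofReal_rpow_of_nonneg (norm_nonneg _) (by norm_num)]
    congr 1
    norm_cast
  rw [h1, ENNReal.ofReal_rpow_of_nonneg (sq_nonneg _) (by norm_num), ← Real.rpow_natCast,
    ← Real.rpow_mul (n2_nonneg a)]
  norm_num

/-- Hölder with a bounded factor. -/
theorem holder_topS {a b c : K3 → ℂ} (ha : Summable a) (hb : Summable b) (hc : Summable c) :
    ∫⁻ x in cube, ‖S c x‖ₑ * (‖S a x‖ₑ * ‖S b x‖ₑ) ≤ eLpNorm (S c) ∞ (volume.restrict cube)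
      * (ENNReal.ofReal (n2 a) * ENNReal.ofReal (n2 b)) := by
  have hca := S_continuous ha
  have hcb := S_continuous hb
  have h1 : ∀ᵐ x ∂(volume.restrict cube), ‖S c x‖ₑ ≤ eLpNorm (S c) ∞ (volume.restrict cube) := by
    rw [eLpNorm_exponent_top]
    exact ae_le_eLpNormEssSup
  calc ∫⁻ x in cube, ‖S c x‖ₑ * (‖S a x‖ₑ * ‖S b x‖ₑ)
      ≤ ∫⁻ x in cube, eLpNorm (S c) ∞ (volume.restrict cube) * (‖S a x‖ₑ * ‖S b x‖ₑ) := by
        refine lintegral_mono_ae ?_
        filter_upwards [h1] with x hx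
        gcongr
    _ = eLpNorm (S c) ∞ (volume.restrict cube) * ∫⁻ x in cube, ‖S a x‖ₑ * ‖S b x‖ₑ :=
        lintegral_const_mul _ (by fun_prop)
    _ ≤ _ := by
        gcongr
        have h2 := ENNReal.lintegral_mul_le_Lp_mul_Lq (volume.restrict cube)
          (Real.HolderConjugate.two_two) (f := fun x => ‖S a x‖ₑ) (g := fun x => ‖S b x‖ₑ)
          (by fun_prop) (by fun_prop)
        rw [← eLpNorm_S_two ha, ← eLpNorm_S_two hb,
          eLpNorm_eq_lintegral_rpow_enorm_toReal (by norm_num) (by norm_num),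
          eLpNorm_eq_lintegral_rpow_enorm_toReal (by norm_num) (by norm_num)]
        have e1 : (2 : ℝ≥0∞).toReal = 2 := by norm_num
        rw [e1]
        exact h2

/-- Hölder with a factor in `L ^ p`. -/
theorem holder_finS {p r : ℝ} (hp : 1 < p) (hr : 0 < r) (hpr : 1 / p + 2 / r = 1) {a b c : K3 → ℂ}
    (ha : Summable a) (hb : Summable b) (hc : Summable c) :
    ∫⁻ x in cube, ‖S c x‖ₑ * (‖S a x‖ₑ * ‖S b x‖ₑ) ≤ (∫⁻ x in cube, ‖S c x‖ₑ ^ p) ^ (1 / p)
      * ((∫⁻ x in cube, ‖S a x‖ₑ ^ r) ^ (1 / r) * (∫⁻ x in cube, ‖S b x‖ₑ ^ r) ^ (1 / r)) := by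
  have hca := S_continuous ha
  have hcb := S_continuous hb
  have hcc := S_continuous hc
  have hp0 : 0 < p := by linarith
  have h := ENNReal.lintegral_prod_norm_pow_le (μ := volume.restrict cube)
    (Finset.univ : Finset (Fin 3))
    (f := ![fun x => ‖S c x‖ₑ ^ p, fun x => ‖S a x‖ₑ ^ r, fun x => ‖S b x‖ₑ ^ r])
    (p := ![1 / p, 1 / r, 1 / r])
    (by
      intro i _
      fin_cases i
      · exact (hcc.enorm.measurable.pow_const _).aemeasurable
      · exact (hca.enorm.measurable.pow_const _).aemeasurable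
      · exact (hcb.enorm.measurable.pow_const _).aemeasurable)
    (by
      simp only [Fin.sum_univ_three, Matrix.cons_val]
      linear_combination hpr)
    (by
      intro i _
      fin_cases i
      · show 0 ≤ 1 / p
        positivity
      · show 0 ≤ 1 / r
        positivity
      · show 0 ≤ 1 / r
        positivity)
  simp only [Fin.prod_univ_three, Matrix.cons_val] at h
  have e : ∀ x, (‖S c x‖ₑ ^ p) ^ (1 / p) * (‖S a x‖ₑ ^ r) ^ (1 / r) * (‖S b x‖ₑ ^ r) ^ (1 / r)
      = ‖S c x‖ₑ * (‖S a x‖ₑ * ‖S b x‖ₑ) := by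
    intro x
    rw [← ENNReal.rpow_mul, ← ENNReal.rpow_mul, ← ENNReal.rpow_mul]
    have a1 : p * (1 / p) = 1 := by field_simp
    have a2 : r * (1 / r) = 1 := by field_simp
    rw [a1, a2, ENNReal.rpow_one, ENNReal.rpow_one, ENNReal.rpow_one, mul_assoc]
  simp_rw [e] at h
  refine h.trans (le_of_eq ?_)
  ring

/-- **A factor in `L ^ p`.** -/
theorem mb_of_Lp {p : ℝ≥0∞} (hp : 3 < p) : ∃ C : ℝ, 0 ≤ C ∧ ∀ (c : K3 → ℂ) (β : ℝ),
    Rap c → 0 ≤ β → eLpNorm (S c) p (volume.restrict cube) ≤ ENNReal.ofReal β →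
      Mb (th p / 2) (C * β) 0 c := by
  rcases eq_or_ne p ∞ with h | h
  · refine ⟨1, zero_le_one, fun c β hc hβ hcβ a b ha hb ha0 hb0 => ?_⟩
    have e : th p = 0 := by unfold th; simp [h]
    rw [e, zero_div, zero_mul, add_zero, one_mul, Hs_zero, Hs_zero]
    have h1 := (tri_norm_le ha.summable hb.summable hc.summable).trans
      (holder_topS ha.summable hb.summable hc.summable)
    rw [h] at hcβ
    have hn : 0 ≤ n2 a * n2 b := mul_nonneg (n2_nonneg a) (n2_nonneg b)
    have h2 : ‖Tri a b c‖ₑ ≤ ENNReal.ofReal (β * (n2 a * n2 b)) := by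
      refine h1.trans ?_
      rw [ENNReal.ofReal_mul hβ, ENNReal.ofReal_mul (n2_nonneg a)]
      gcongr
    rw [← ofReal_norm] at h2
    exact (ENNReal.ofReal_le_ofReal_iff (mul_nonneg hβ hn)).1 h2
  · set P := p.toReal with hP
    have hP3 : 3 < P := by
      have := (ENNReal.toReal_lt_toReal (by norm_num) h).2 hp
      simpa using this
    have hp0 : p ≠ 0 := (lt_trans (by norm_num) hp).ne'
    have e : th p = 3 / P := by
      unfold th
      rw [ENNReal.toReal_inv, div_eq_mul_inv]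
    set s := th p / 2 with hs
    have hs0 : 0 < s := by rw [hs, e]; positivity
    have hs1 : s < 1 / 2 := by
      have := th_lt_one hp
      rw [hs]; linarith
    obtain ⟨C, hC0, hC⟩ := sob hs0 (by linarith)
    set r : ℝ := 6 / (3 - 2 * s) with hr
    have hd : 0 < 3 - 2 * s := by linarith
    have hr0 : 0 < r := by positivity
    have hpr : 1 / P + 2 / r = 1 := by
      have : 2 * s = 3 / P := by rw [hs, e]; ring
      rw [hr, this]
      field_simp
      ring
    refine ⟨(C ^ (1 / r)) ^ 2, by positivity, fun c β hc hβ hcβ a b ha hb ha0 hb0 => ?_⟩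
    have h1 := (tri_norm_le ha.summable hb.summable hc.summable).trans
      (holder_finS (by linarith : 1 < P) hr0 hpr ha.summable hb.summable hc.summable)
    rw [eLpNorm_eq_lintegral_rpow_enorm_toReal hp0 h, ← hP] at hcβ
    have key : ∀ f : K3 → ℂ, Rap f → f 0 = 0 → (∫⁻ x in cube, ‖S f x‖ₑ ^ r) ^ (1 / r)
        ≤ ENNReal.ofReal (C ^ (1 / r) * Hs s f) := by
      intro f hf hf0
      have h3 := hC f hf hf0
      have h4 : ∫⁻ x in cube, ‖S f x‖ₑ ^ r = ∫⁻ x in cube, ENNReal.ofReal (‖S f x‖ ^ r) := by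
        congr 1
        funext x
        rw [← ofReal_norm, ENNReal.ofReal_rpow_of_nonneg (norm_nonneg _) hr0.le]
      rw [h4]
      have hn := Hs_nonneg s f
      calc (∫⁻ x in cube, ENNReal.ofReal (‖S f x‖ ^ r)) ^ (1 / r)
          ≤ (ENNReal.ofReal (C * Hs s f ^ r)) ^ (1 / r) :=
            ENNReal.rpow_le_rpow h3 (by positivity)
        _ = ENNReal.ofReal (C ^ (1 / r) * Hs s f) := by
            rw [ENNReal.ofReal_rpow_of_nonneg (by positivity) (by positivity),
              Real.mul_rpow hC0 (by positivity), ← Real.rpow_mul hn]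
            congr 2
            rw [mul_one_div_cancel hr0.ne', Real.rpow_one]
    have h5 : ‖Tri a b c‖ₑ ≤ ENNReal.ofReal ((C ^ (1 / r)) ^ 2 * β * (Hs s a * Hs s b)) := by
      refine h1.trans ?_
      have hna := Hs_nonneg s a
      have hnb := Hs_nonneg s b
      calc _ ≤ ENNReal.ofReal β * (ENNReal.ofReal (C ^ (1 / r) * Hs s a)
            * ENNReal.ofReal (C ^ (1 / r) * Hs s b)) :=
            mul_le_mul' hcβ (mul_le_mul' (key a ha ha0) (key b hb hb0))
        _ = _ := by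
            rw [← ENNReal.ofReal_mul (by positivity), ← ENNReal.ofReal_mul hβ]
            congr 1
            ring
    rw [zero_mul, add_zero]
    rw [← ofReal_norm] at h5
    have hna := Hs_nonneg s a
    have hnb := Hs_nonneg s b
    exact (ENNReal.ofReal_le_ofReal_iff (by positivity)).1 h5

/-- A bounded factor. -/
theorem mb_of_bdd {c : K3 → ℂ} {γ s : ℝ} (hc : Rap c) (hcγ : ∑' k, ‖c k‖ ≤ γ) : Mb s 0 γ c := by
  intro a b ha hb _ _
  rw [zero_mul, zero_add, Hs_zero, Hs_zero]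
  exact norm_tri_le3 ha.summable hb.summable hc.summable
    (fun x => (norm_S_le hc.summable x).trans hcγ)

theorem Mb.add {s β γ β' γ' : ℝ} {c c' : K3 → ℂ} (h : Mb s β γ c) (h' : Mb s β' γ' c')
    (hc : Summable c) (hc' : Summable c') : Mb s (β + β') (γ + γ') (c + c') := by
  intro a b ha hb ha0 hb0
  rw [tri_add3 ha.summable hb.summable hc hc']
  refine (norm_add_le _ _).trans ?_
  have h1 := h a b ha hb ha0 hb0
  have h2 := h' a b ha hb ha0 hb0
  linarith

end Pool.Agent.TH300.HS
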