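import Pool.Agent.TH300.HS.Hel
import Pool.Agent.TH300.HS.Bnd

/-!
The helical components.
-/

set_option autoImplicit false

open MeasureTheory Set Filter Topology
open H459R3.NS Pool.Agent.TH305.FB

namespace Pool.Agent.TH300.HS

/-- The cross product with the frequency. -/
noncomputable def cr (U : Fin 3 → K3 → ℂ) (i : Fin 3) (k : K3) : ℂ :=
  (k (i + 1) : ℂ) * U (i + 2) k - (k (i + 2) : ℂ) * U (i + 1) k

/-- The helical component with sign `σ`. -/
noncomputable def hp (σ : ℝ) (U : Fin 3 → K3 → ℂ) (i : Fin 3) (k : K3) : ℂ :=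
  (1 / 2) * (U i k + σ * (Complex.I * cr U i k / en k))

variable {U : Fin 3 → K3 → ℂ} {σ : ℝ}

theorem cl_eq (V : Fin 3 → K3 → ℂ) (i : Fin 3) (k : K3) :
    cl V i k = 2 * Real.pi * Complex.I * cr V i k := by
  unfold cl cr D
  simp only [Pi.sub_apply]
  ring

theorem hp_add (σ : ℝ) (U : Fin 3 → K3 → ℂ) (i : Fin 3) : hp (-σ) U i + hp σ U i = U i := by
  funext k
  simp only [Pi.add_apply, hp]
  push_cast
  ring

theorem abs_σ (hσ : σ ^ 2 = 1) : |σ| = 1 := by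
  have h : |σ| ^ 2 = 1 := by rw [sq_abs]; exact hσ
  nlinarith [abs_nonneg σ]

theorem norm_cr_le (U : Fin 3 → K3 → ℂ) (i : Fin 3) (k : K3) :
    ‖cr U i k‖ ≤ en k * (‖U (i + 1) k‖ + ‖U (i + 2) k‖) := by
  unfold cr
  refine (norm_sub_le _ _).trans ?_
  rw [norm_mul, norm_mul]
  have h1 := (abs_le_N k (i + 1)).trans (N_le_en k)
  have h2 := (abs_le_N k (i + 2)).trans (N_le_en k)
  have := mul_le_mul_of_nonneg_right h1 (norm_nonneg (U (i + 2) k))
  have := mul_le_mul_of_nonneg_right h2 (norm_nonneg (U (i + 1) k))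
  linarith

theorem norm_hp_le (hσ : σ ^ 2 = 1) (U : Fin 3 → K3 → ℂ) (i : Fin 3) (k : K3) :
    ‖hp σ U i k‖ ≤ (1 / 2) * am U k := by
  have h3 : am U k = ‖U i k‖ + (‖U (i + 1) k‖ + ‖U (i + 2) k‖) := by
    unfold am
    rw [Fin.sum_univ_three]
    fin_cases i
    · show _ = ‖U 0 k‖ + (‖U 1 k‖ + ‖U 2 k‖)
      ring
    · show _ = ‖U 1 k‖ + (‖U 2 k‖ + ‖U 0 k‖)
      ring
    · show _ = ‖U 2 k‖ + (‖U 0 k‖ + ‖U 1 k‖)
      ring
  unfold hp
  rw [norm_mul, h3]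
  have e : ‖(1 / 2 : ℂ)‖ = 1 / 2 := by norm_num
  rw [e]
  have h4 : ‖(σ : ℂ) * (Complex.I * cr U i k / en k)‖ ≤ ‖U (i + 1) k‖ + ‖U (i + 2) k‖ := by
    rw [norm_mul, Complex.norm_real, Real.norm_eq_abs, abs_σ hσ, one_mul, norm_div, norm_mul,
      Complex.norm_I, one_mul, Complex.norm_real, Real.norm_eq_abs, abs_of_nonneg (en_nonneg k)]
    exact div_le_of_le_mul₀ (en_nonneg k) (by positivity) (by
      rw [mul_comm]; exact norm_cr_le U i k)
  have h5 := norm_add_le (U i k) ((σ : ℂ) * (Complex.I * cr U i k / en k))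
  linarith

theorem am_sq_le (U : Fin 3 → K3 → ℂ) (k : K3) : am U k ^ 2 ≤ 3 * TH305.FB.e2 U k := by
  unfold am TH305.FB.e2
  simp only [Fin.sum_univ_three]
  nlinarith [sq_nonneg (‖U 0 k‖ - ‖U 1 k‖), sq_nonneg (‖U 0 k‖ - ‖U 2 k‖),
    sq_nonneg (‖U 1 k‖ - ‖U 2 k‖)]

theorem hp_sq_le (hσ : σ ^ 2 = 1) (U : Fin 3 → K3 → ℂ) (i : Fin 3) (k : K3) :
    ‖hp σ U i k‖ ^ 2 ≤ TH305.FB.e2 U k := by
  have h1 := norm_hp_le hσ U i k
  have h2 := am_sq_le U k
  have h3 := am_nonneg U k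
  have h4 := norm_nonneg (hp σ U i k)
  have h5 := TH305.FB.e2_nonneg U k
  nlinarith

theorem U_sq_le (U : Fin 3 → K3 → ℂ) (i : Fin 3) (k : K3) :
    ‖U i k‖ ^ 2 ≤ TH305.FB.e2 U k := by
  unfold TH305.FB.e2
  exact Finset.single_le_sum (f := fun i => ‖U i k‖ ^ 2) (fun _ _ => sq_nonneg _)
    (Finset.mem_univ i)

theorem rap_of_am (hU : ∀ i, Rap (U i)) {a : K3 → ℂ} {c : ℝ} (h : ∀ k, ‖a k‖ ≤ c * am U k) :
    Rap a := by
  intro n
  have h1 : Summable fun k => (N k : ℝ) ^ n * am U k := by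
    unfold am
    simp_rw [Finset.mul_sum]
    exact summable_sum fun i _ => hU i n
  refine Summable.of_nonneg_of_le (fun k => by positivity) (fun k => ?_) (h1.mul_left c)
  calc (N k : ℝ) ^ n * ‖a k‖ ≤ (N k : ℝ) ^ n * (c * am U k) := by
        gcongr
        exact h k
    _ = _ := by ring

theorem rap_hp (hσ : σ ^ 2 = 1) (hU : ∀ i, Rap (U i)) (i : Fin 3) : Rap (hp σ U i) :=
  rap_of_am hU (norm_hp_le hσ U i)

theorem div_hp (hdiv : ∀ k, ∑ j, (k j : ℂ) * U j k = 0) (σ : ℝ) (k : K3) :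
    ∑ j, (k j : ℂ) * hp σ U j k = 0 := by
  have h := hdiv k
  simp only [Fin.sum_univ_three] at h ⊢
  unfold hp cr
  have e0 : (0 : Fin 3) + 1 = 1 := rfl
  have e1 : (0 : Fin 3) + 2 = 2 := rfl
  have e2 : (1 : Fin 3) + 1 = 2 := rfl
  have e3 : (1 : Fin 3) + 2 = 0 := rfl
  have e4 : (2 : Fin 3) + 1 = 0 := rfl
  have e5 : (2 : Fin 3) + 2 = 1 := rfl
  rw [e0, e1, e2, e3, e4, e5]
  linear_combination (1 / 2 : ℂ) * h

theorem cr_cr (hdiv : ∀ k, ∑ j, (k j : ℂ) * U j k = 0) (i : Fin 3) (k : K3) :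
    (k (i + 1) : ℂ) * cr U (i + 2) k - (k (i + 2) : ℂ) * cr U (i + 1) k
      = -((en k : ℂ)) ^ 2 * U i k := by
  have h := hdiv k
  have h2 : ((en k : ℂ)) ^ 2 = (k 0 : ℂ) ^ 2 + (k 1 : ℂ) ^ 2 + (k 2 : ℂ) ^ 2 := by
    have := en_sq k
    unfold nk2 at this
    rw [Fin.sum_univ_three] at this
    exact_mod_cast this
  rw [h2]
  simp only [Fin.sum_univ_three] at h
  unfold cr
  have e0 : (0 : Fin 3) + 1 = 1 := rfl
  have e1 : (0 : Fin 3) + 2 = 2 := rfl
  have e2 : (1 : Fin 3) + 1 = 2 := rfl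
  have e3 : (1 : Fin 3) + 2 = 0 := rfl
  have e4 : (2 : Fin 3) + 1 = 0 := rfl
  have e5 : (2 : Fin 3) + 2 = 1 := rfl
  fin_cases i
  · simp only [Fin.zero_eta, Fin.mk_one, Fin.reduceFinMk, e0, e1, e2, e3, e4, e5]
    linear_combination (k 0 : ℂ) * h
  · simp only [Fin.zero_eta, Fin.mk_one, Fin.reduceFinMk, e0, e1, e2, e3, e4, e5]
    linear_combination (k 1 : ℂ) * h
  · simp only [Fin.zero_eta, Fin.mk_one, Fin.reduceFinMk, e0, e1, e2, e3, e4, e5]
    linear_combination (k 2 : ℂ) * h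

theorem hp_hel (hσ : σ ^ 2 = 1) (hdiv : ∀ k, ∑ j, (k j : ℂ) * U j k = 0) (i : Fin 3) (k : K3) :
    Lam (hp σ U i) k = (σ / (2 * Real.pi) : ℂ) * cl (hp σ U) i k := by
  rw [cl_eq]
  have hpi : (Real.pi : ℂ) ≠ 0 := by exact_mod_cast Real.pi_ne_zero
  have e : (σ / (2 * Real.pi) : ℂ) * (2 * Real.pi * Complex.I * cr (hp σ U) i k)
      = σ * (Complex.I * cr (hp σ U) i k) := by
    field_simp
  rw [e]
  rcases eq_or_ne k 0 with hk | hk
  · rw [hk, Lam_zero]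
    unfold cr
    simp
  · have hn : (en k : ℂ) ≠ 0 := by exact_mod_cast (en_pos hk).ne'
    have h1 := cr_cr hdiv i k
    have h2 : cr (hp σ U) i k = (1 / 2) * (cr U i k + σ * (Complex.I
        * ((k (i + 1) : ℂ) * cr U (i + 2) k - (k (i + 2) : ℂ) * cr U (i + 1) k) / en k)) := by
      conv_lhs => unfold cr
      unfold hp
      conv_rhs =>
        arg 2
        arg 1
        unfold cr
      ring
    rw [h2, h1]
    have h3 : ((σ : ℂ)) ^ 2 = 1 := by exact_mod_cast hσ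
    unfold HS.Lam hp
    field_simp
    have hI := Complex.I_sq
    linear_combination (en k * U i k : ℂ) * (σ ^ 2 * hI - h3)

/-! ### Norms -/

/-- `∑ |k| |U(k)|²` -/
noncomputable def XX (U : Fin 3 → K3 → ℂ) : ℝ := ∑' k, en k * TH305.FB.e2 U k

/-- `∑ |k|³ |U(k)|²` -/
noncomputable def YY (U : Fin 3 → K3 → ℂ) : ℝ := ∑' k, en k ^ 3 * TH305.FB.e2 U k

theorem XX_nonneg (U : Fin 3 → K3 → ℂ) : 0 ≤ XX U :=
  tsum_nonneg fun k => mul_nonneg (en_nonneg k) (TH305.FB.e2_nonneg U k)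

theorem YY_nonneg (U : Fin 3 → K3 → ℂ) : 0 ≤ YY U :=
  tsum_nonneg fun k => mul_nonneg (pow_nonneg (en_nonneg k) 3) (TH305.FB.e2_nonneg U k)

theorem summable_ene (hU : ∀ i, Rap (U i)) (n : ℕ) :
    Summable fun k => en k ^ n * TH305.FB.e2 U k := by
  unfold TH305.FB.e2
  simp_rw [Finset.mul_sum]
  refine summable_sum fun i _ => ?_
  have hM : ∀ k, ‖U i k‖ ≤ ∑' m, ‖U i m‖ := fun k =>
    (hU i).summable.norm.le_tsum k fun _ _ => norm_nonneg _
  refine Summable.of_nonneg_of_le (fun k => mul_nonneg (pow_nonneg (en_nonneg k) n)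
    (sq_nonneg _)) (fun k => ?_) ((hU i n).mul_left (2 ^ n * ∑' m, ‖U i m‖))
  have h1 := en_le k
  have h2 := hM k
  have h3 := en_nonneg k
  calc en k ^ n * ‖U i k‖ ^ 2 ≤ (2 * (N k : ℝ)) ^ n * ((∑' m, ‖U i m‖) * ‖U i k‖) := by
        rw [sq]
        gcongr
    _ = _ := by rw [mul_pow]; ring

theorem bd_of (hU : ∀ i, Rap (U i)) {f : K3 → ℂ} (hf : Rap f)
    (h : ∀ k, ‖f k‖ ^ 2 ≤ TH305.FB.e2 U k) : Bd √(XX U) √(YY U) f := by
  refine ⟨hf, ?_, ?_⟩
  · unfold Hs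
    refine Real.sqrt_le_sqrt ?_
    have h1 := summable_ene hU 1
    simp_rw [pow_one] at h1
    refine Summable.tsum_le_tsum (fun k => ?_) (hs_summable hf (by norm_num) (by norm_num)) h1
    have e : en k ^ (2 * (1 / 2 : ℝ)) = en k := by norm_num
    rw [e]
    exact mul_le_mul_of_nonneg_left (h k) (en_nonneg k)
  · unfold Hs
    refine Real.sqrt_le_sqrt ?_
    refine Summable.tsum_le_tsum (fun k => ?_) (hs_summable hf (by norm_num) (by norm_num))
      (summable_ene hU 3)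
    have e : en k ^ (2 * (3 / 2 : ℝ)) = en k ^ 3 := by
      have : (2 * (3 / 2 : ℝ)) = ((3 : ℕ) : ℝ) := by norm_num
      rw [this, Real.rpow_natCast]
    rw [e]
    exact mul_le_mul_of_nonneg_left (h k) (pow_nonneg (en_nonneg k) 3)

/-- The multiplier bound of the helical component. -/
theorem mb_hp (hσ : σ ^ 2 = 1) (hU : ∀ i, Rap (U i)) {s B R : ℝ} (i : Fin 3)
    (h : Mb s B 0 ({k : K3 | R ≤ en k}.indicator (hp σ U i))) :
    Mb s B √(81 * (max R 1) ^ 3 * EE U) (hp σ U i) := by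
  have hr := rap_hp hσ hU i
  have h1 : {k : K3 | R ≤ en k}.indicator (hp σ U i)
      + {k : K3 | R ≤ en k}ᶜ.indicator (hp σ U i) = hp σ U i := Set.indicator_self_add_compl _ _
  have h2 : ∑' k, ‖{k : K3 | R ≤ en k}ᶜ.indicator (hp σ U i) k‖
      ≤ √(81 * (max R 1) ^ 3 * EE U) := by
    have h3 := sum_low hU (le_max_right R 1)
    refine le_trans ?_ h3
    refine Summable.tsum_le_tsum (fun k => ?_) ((hr.ind _).summable.norm)
      ((summable_am hU).indicator _)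
    by_cases hk : k ∈ {k : K3 | R ≤ en k}ᶜ
    · rw [Set.indicator_of_mem hk]
      have hk2 : (N k : ℝ) ≤ max R 1 := by
        have : en k < R := not_le.1 hk
        exact (N_le_en k).trans (this.le.trans (le_max_left _ _))
      rw [Set.indicator_of_mem (show k ∈ {k : K3 | (N k : ℝ) ≤ max R 1} from hk2)]
      have := norm_hp_le hσ U i k
      have := am_nonneg U k
      linarith
    · rw [Set.indicator_of_notMem hk, norm_zero]
      exact Set.indicator_nonneg (fun _ _ => am_nonneg U _) k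
  have h4 := h.add (mb_of_bdd (s := s) (hr.ind _) h2) (hr.ind _).summable (hr.ind _).summable
  rw [h1] at h4
  simpa using h4

end Pool.Agent.TH300.HS
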