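import Pool.Agent.TH300.HS.Ker2
import Pool.Agent.TH305.FB.Band

/-!
The Sobolev inequality for fractional norms on the torus.
-/

set_option autoImplicit false

open MeasureTheory Set Filter Topology
open scoped ENNReal
open H459R3.NS Pool.Agent.TH305.FB

namespace Pool.Agent.TH300.HS

theorem N_le_en (k : K3) : (N k : ℝ) ≤ en k := by
  unfold en
  exact Real.le_sqrt_of_sq_le (Pool.Agent.TH305.FB.N_sq_le k)

theorem en_le (k : K3) : en k ≤ 2 * N k := by
  unfold en
  rw [Real.sqrt_le_left (by positivity)]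
  have := nk2_le k
  nlinarith [sq_nonneg (N k : ℝ)]

theorem one_le_en {k : K3} (hk : k ≠ 0) : 1 ≤ en k := by
  refine le_trans ?_ (N_le_en k)
  have : N k ≠ 0 := fun h => hk (N_eq_zero.1 h)
  exact_mod_cast Nat.one_le_iff_ne_zero.2 this

theorem en_zero : en 0 = 0 := by simp [en, nk2]

theorem en_pos {k : K3} (hk : k ≠ 0) : 0 < en k := one_pos.trans_le (one_le_en hk)

theorem en_neg (k : K3) : en (-k) = en k := by simp [en, nk2]

theorem en_rpow_nonneg (s : ℝ) (k : K3) : 0 ≤ en k ^ s := Real.rpow_nonneg (en_nonneg k) _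

theorem rpow_le_of {x s : ℝ} (hx : 0 ≤ x) (hs0 : 0 ≤ s) (hs : s ≤ 4) : x ^ s ≤ 1 + x ^ 4 := by
  rcases le_total x 1 with h | h
  · have := Real.rpow_le_one hx h hs0
    have h4 : 0 ≤ x ^ 4 := by positivity
    linarith
  · have := Real.rpow_le_rpow_of_exponent_le h hs
    have e : x ^ (4 : ℝ) = x ^ 4 := by norm_cast
    rw [e] at this
    linarith

/-- The square of the homogeneous Sobolev norm. -/
noncomputable def hs (s : ℝ) (a : K3 → ℂ) : ℝ := ∑' k, en k ^ (2 * s) * ‖a k‖ ^ 2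

/-- The homogeneous Sobolev norm. -/
noncomputable def Hs (s : ℝ) (a : K3 → ℂ) : ℝ := √(hs s a)

theorem hs_term_nonneg (s : ℝ) (a : K3 → ℂ) (k : K3) : 0 ≤ en k ^ (2 * s) * ‖a k‖ ^ 2 :=
  mul_nonneg (en_rpow_nonneg _ _) (sq_nonneg _)

theorem hs_nonneg (s : ℝ) (a : K3 → ℂ) : 0 ≤ hs s a := tsum_nonneg fun k => hs_term_nonneg s a k

theorem Hs_nonneg (s : ℝ) (a : K3 → ℂ) : 0 ≤ Hs s a := Real.sqrt_nonneg _

theorem Hs_sq (s : ℝ) (a : K3 → ℂ) : Hs s a ^ 2 = hs s a := Real.sq_sqrt (hs_nonneg s a)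

theorem hs_summable {a : K3 → ℂ} (ha : Rap a) {s : ℝ} (hs0 : 0 ≤ s) (hs2 : s ≤ 2) :
    Summable fun k => en k ^ (2 * s) * ‖a k‖ ^ 2 := by
  have hM : ∀ k, ‖a k‖ ≤ ∑' m, ‖a m‖ := fun k =>
    ha.summable.norm.le_tsum k fun _ _ => norm_nonneg _
  have h1 := ((ha 0).add ((ha 4).mul_left 16)).mul_left (∑' m, ‖a m‖)
  refine Summable.of_nonneg_of_le (fun k => hs_term_nonneg s a k) (fun k => ?_) h1
  have h2 := rpow_le_of (en_nonneg k) (s := 2 * s) (by linarith) (by linarith)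
  have h3 : en k ^ 4 ≤ 16 * (N k : ℝ) ^ 4 := by
    calc en k ^ 4 ≤ (2 * N k) ^ 4 := by
          gcongr
          · exact en_nonneg k
          · exact en_le k
      _ = _ := by ring
  have h4 : 0 ≤ ‖a k‖ := norm_nonneg _
  calc en k ^ (2 * s) * ‖a k‖ ^ 2 ≤ (1 + 16 * (N k : ℝ) ^ 4) * ((∑' m, ‖a m‖) * ‖a k‖) := by
        rw [sq]
        refine mul_le_mul (h2.trans (by linarith)) (mul_le_mul_of_nonneg_right (hM k) h4)
          (by positivity) (by positivity)
    _ = _ := by rw [pow_zero]; ring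

theorem n2_sq_le_hs {a : K3 → ℂ} (ha : Rap a) (h0 : a 0 = 0) {s : ℝ} (hs0 : 0 ≤ s)
    (hs2 : s ≤ 2) : n2 a ^ 2 ≤ hs s a := by
  rw [n2_sq]
  refine Summable.tsum_le_tsum (fun k => ?_) (summable_sq ha.summable) (hs_summable ha hs0 hs2)
  rcases eq_or_ne k 0 with h | h
  · rw [h, h0]; simp
  · have := Real.one_le_rpow (one_le_en h) (z := 2 * s) (by linarith)
    nlinarith [sq_nonneg ‖a k‖]

/-! ### lattice sums -/

theorem sum_box (n : ℕ) : ∑ k ∈ (box n).erase 0, (1 : ℝ) / (N k : ℝ) ^ 2 ≤ 26 * (n : ℝ) := by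
  induction n with
  | zero =>
    have : (box 0).erase 0 = ∅ := by
      ext k
      simp only [Finset.mem_erase, mem_box, Finset.notMem_empty, iff_false, not_and]
      intro h1 h2
      exact h1 (N_eq_zero.1 (Nat.le_zero.1 h2))
    rw [this]; simp
  | succ n ih =>
    have hsub : box n ⊆ box (n + 1) := fun k hk => mem_box.2 ((mem_box.1 hk).trans (Nat.le_succ n))
    have hsub' : (box n).erase 0 ⊆ (box (n + 1)).erase 0 := Finset.erase_subset_erase _ hsub
    have h1 : ∑ k ∈ (box (n + 1)).erase 0 \ (box n).erase 0, (1 : ℝ) / (N k : ℝ) ^ 2 ≤ 26 := by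
      have h2 : ∀ k ∈ (box (n + 1)).erase 0 \ (box n).erase 0, 1 / (N k : ℝ) ^ 2
          ≤ 1 / ((n : ℝ) + 1) ^ 2 := by
        intro k hk
        rw [Finset.mem_sdiff, Finset.mem_erase, Finset.mem_erase, mem_box, mem_box] at hk
        have h3 : ¬ N k ≤ n := fun h => hk.2 ⟨hk.1.1, h⟩
        have h4 : (n : ℝ) + 1 ≤ N k := by exact_mod_cast (by omega : n + 1 ≤ N k)
        have h5 : (0 : ℝ) < (n : ℝ) + 1 := by positivity
        gcongr
      refine (Finset.sum_le_sum h2).trans ?_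
      rw [Finset.sum_const, nsmul_eq_mul]
      have h3 : (((box (n + 1)).erase 0 \ (box n).erase 0).card : ℝ)
          ≤ 26 * ((n : ℝ) + 1) ^ 2 := by
        have h4 : (box (n + 1)).erase 0 \ (box n).erase 0 ⊆ box (n + 1) \ box n := by
          intro k hk
          rw [Finset.mem_sdiff, Finset.mem_erase, Finset.mem_erase] at hk
          rw [Finset.mem_sdiff]
          exact ⟨hk.1.2, fun h => hk.2 ⟨hk.1.1, h⟩⟩
        have h5 := Finset.card_le_card h4
        rw [Finset.card_sdiff_of_subset hsub, card_box, card_box] at h5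
        have h6 : (2 * n + 1) ^ 3 ≤ (2 * (n + 1) + 1) ^ 3 := by gcongr; omega
        have h7 : ((2 * (n + 1) + 1) ^ 3 - (2 * n + 1) ^ 3 : ℕ) ≤ 26 * (n + 1) ^ 2 := by
          have : (2 * (n + 1) + 1) ^ 3 ≤ (2 * n + 1) ^ 3 + 26 * (n + 1) ^ 2 := by ring_nf; nlinarith
          omega
        exact_mod_cast h5.trans h7
      have h6 : (0 : ℝ) < ((n : ℝ) + 1) ^ 2 := by positivity
      calc (((box (n + 1)).erase 0 \ (box n).erase 0).card : ℝ) * (1 / ((n : ℝ) + 1) ^ 2)
          ≤ (26 * ((n : ℝ) + 1) ^ 2) * (1 / ((n : ℝ) + 1) ^ 2) := by gcongr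
        _ = 26 := by field_simp
    rw [← Finset.sum_sdiff hsub']
    push_cast
    linarith

/-- The sum of the coefficients with low frequencies. -/
theorem sum_lowS {a : K3 → ℂ} (ha : Rap a) (h0 : a 0 = 0) {s : ℝ} (hs0 : 0 ≤ s) (hs1 : s ≤ 1)
    {A : ℝ} (hA : 0 < A) :
    ∑' k, {k : K3 | en k ≤ A}.indicator (fun k => ‖a k‖) k ≤ √26 * (A ^ (3 / 2 - s) * Hs s a) := by
  rcases lt_or_ge A 1 with h1 | h1
  · have : ∀ k, {k : K3 | en k ≤ A}.indicator (fun k => ‖a k‖) k = 0 := by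
      intro k
      rcases eq_or_ne k 0 with h | h
      · rw [h, indicator_apply]
        simp [h0]
      · refine indicator_of_notMem (fun h2 => ?_) _
        have h3 := one_le_en h
        have h4 : en k ≤ A := h2
        linarith
    simp_rw [this]
    rw [tsum_zero]
    have := Hs_nonneg s a
    positivity
  set n := ⌊A⌋₊ with hn
  have hA0 : 0 ≤ A := hA.le
  have hnA : (n : ℝ) ≤ A := Nat.floor_le hA0
  have h2 : ∑' k, {k : K3 | en k ≤ A}.indicator (fun k => ‖a k‖) k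
      = ∑ k ∈ (box n).erase 0, {k : K3 | en k ≤ A}.indicator (fun k => ‖a k‖) k := by
    refine tsum_eq_sum fun k hk => ?_
    rcases eq_or_ne k 0 with h | h
    · rw [h, indicator_apply]
      simp [h0]
    · refine indicator_of_notMem (fun h2 => hk ?_) _
      rw [Finset.mem_erase, mem_box]
      exact ⟨h, Nat.le_floor ((N_le_en k).trans h2)⟩
  rw [h2]
  have h3 : ∑ k ∈ (box n).erase 0, {k : K3 | en k ≤ A}.indicator (fun k => ‖a k‖) k
      ≤ ∑ k ∈ (box n).erase 0, (en k ^ (-s)) * (en k ^ s * ‖a k‖) := by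
    refine Finset.sum_le_sum fun k hk => ?_
    rw [Finset.mem_erase] at hk
    have hp := en_pos hk.1
    rw [← mul_assoc, ← Real.rpow_add hp]
    simp only [neg_add_cancel, Real.rpow_zero, one_mul]
    exact Set.indicator_le_self' (fun _ _ => norm_nonneg _) k
  refine h3.trans ((Real.sum_mul_le_sqrt_mul_sqrt _ _ _).trans ?_)
  have h4 : ∑ k ∈ (box n).erase 0, (en k ^ s * ‖a k‖) ^ 2 ≤ hs s a := by
    have h5 : ∀ k, (en k ^ s * ‖a k‖) ^ 2 = en k ^ (2 * s) * ‖a k‖ ^ 2 := by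
      intro k
      rw [mul_pow, ← Real.rpow_natCast, ← Real.rpow_mul (en_nonneg k)]
      congr 2
      push_cast
      ring
    simp_rw [h5]
    exact (hs_summable ha hs0 (by linarith)).sum_le_tsum _ fun k _ => hs_term_nonneg s a k
  have h6 : ∑ k ∈ (box n).erase 0, (en k ^ (-s)) ^ 2 ≤ 26 * (A ^ (3 / 2 - s)) ^ 2 := by
    have h7 : ∀ k ∈ (box n).erase 0, (en k ^ (-s)) ^ 2 ≤ A ^ (2 - 2 * s) * (1 / (N k : ℝ) ^ 2) := by
      intro k hk
      rw [Finset.mem_erase, mem_box] at hk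
      have hN0 : (0 : ℝ) < N k := by
        have : N k ≠ 0 := fun h => hk.1 (N_eq_zero.1 h)
        positivity
      have hNA : (N k : ℝ) ≤ A := le_trans (by exact_mod_cast hk.2) hnA
      have h8 : (en k ^ (-s)) ^ 2 ≤ ((N k : ℝ) ^ (-s)) ^ 2 := by
        have := Real.rpow_le_rpow_of_nonpos hN0 (N_le_en k) (z := -s) (by linarith)
        have h9 := en_rpow_nonneg (-s) k
        gcongr
      refine h8.trans ?_
      have e1 : ((N k : ℝ) ^ (-s)) ^ 2 = (N k : ℝ) ^ (2 - 2 * s) * (1 / (N k : ℝ) ^ 2) := by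
        rw [← Real.rpow_natCast, ← Real.rpow_mul hN0.le, one_div, ← Real.rpow_natCast (N k : ℝ) 2,
          ← Real.rpow_neg hN0.le, ← Real.rpow_add hN0]
        congr 1
        push_cast
        ring
      rw [e1]
      have := Real.rpow_le_rpow hN0.le hNA (z := 2 - 2 * s) (by linarith)
      gcongr
    refine (Finset.sum_le_sum h7).trans ?_
    rw [← Finset.mul_sum]
    have h8 := sum_box n
    have e2 : (A ^ (3 / 2 - s)) ^ 2 = A ^ (2 - 2 * s) * A := by
      rw [← Real.rpow_natCast, ← Real.rpow_mul hA0]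
      nth_rewrite 3 [← Real.rpow_one A]
      rw [← Real.rpow_add hA]
      congr 1
      push_cast
      ring
    rw [e2]
    have h9 : 0 ≤ A ^ (2 - 2 * s) := Real.rpow_nonneg hA0 _
    calc A ^ (2 - 2 * s) * ∑ k ∈ (box n).erase 0, 1 / (N k : ℝ) ^ 2
        ≤ A ^ (2 - 2 * s) * (26 * A) := by
          gcongr
          exact h8.trans (by gcongr)
      _ = _ := by ring
  have h10 : √(∑ k ∈ (box n).erase 0, (en k ^ (-s)) ^ 2) ≤ √26 * A ^ (3 / 2 - s) := by
    rw [Real.sqrt_le_left (by positivity), mul_pow, Real.sq_sqrt (by norm_num)]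
    exact h6
  rw [← mul_assoc]
  unfold Hs
  exact mul_le_mul h10 (Real.sqrt_le_sqrt h4) (Real.sqrt_nonneg _) (by positivity)

end Pool.Agent.TH300.HS
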