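import Pool.Agent.TH300.HS.Sob

/-!
The Sobolev inequality for fractional norms on the torus: the inequality.
-/

set_option autoImplicit false

open MeasureTheory Set Filter Topology
open scoped ENNReal
open H459R3.NS Pool.Agent.TH305.FB

namespace Pool.Agent.TH300.HS

theorem S_add {a b : K3 → ℂ} (ha : Summable a) (hb : Summable b) (x : V) :
    S (a + b) x = S a x + S b x := by
  unfold S
  rw [← (summable_term ha x).tsum_add (summable_term hb x)]
  exact tsum_congr fun k => by rw [Pi.add_apply, add_mul]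

/-- Chebyshev for the part with high frequencies. -/
theorem meas_le {a : K3 → ℂ} (ha : Rap a) (h0 : a 0 = 0) {s : ℝ} (hs0 : 0 ≤ s) (hs1 : s ≤ 1)
    {A t : ℝ} (hA : 0 < A) (ht : 0 < t) (hAt : √26 * (A ^ (3 / 2 - s) * Hs s a) ≤ t / 2) :
    volume.restrict cube {x : V | t < ‖S a x‖}
      ≤ ENNReal.ofReal (4 / t ^ 2) *
        ∑' k, {k : K3 | A < en k}.indicator (fun k => ENNReal.ofReal (‖a k‖ ^ 2)) k := by
  set R : Set K3 := {k : K3 | en k ≤ A} with hR
  have hRc : Rᶜ = {k : K3 | A < en k} := by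
    ext k
    simp [hR]
  have ha1 := (ha.ind R).summable
  have ha2 := (ha.ind Rᶜ).summable
  have hlow : ∀ x, ‖S (R.indicator a) x‖ ≤ t / 2 := by
    intro x
    refine (norm_S_le ha1 x).trans (le_trans (le_of_eq ?_) ((sum_lowS ha h0 hs0 hs1 hA).trans hAt))
    refine tsum_congr fun k => ?_
    rw [norm_indicator_eq_indicator_norm]
  have hsub : {x : V | t < ‖S a x‖} ⊆ {x : V | ENNReal.ofReal ((t / 2) ^ 2)
      ≤ ENNReal.ofReal (‖S (Rᶜ.indicator a) x‖ ^ 2)} := by
    intro x hx
    have h1 : S a x = S (R.indicator a) x + S (Rᶜ.indicator a) x := by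
      rw [← S_add ha1 ha2, Set.indicator_self_add_compl]
    have h2 : t < ‖S a x‖ := hx
    have h3 : ‖S a x‖ ≤ t / 2 + ‖S (Rᶜ.indicator a) x‖ := by
      rw [h1]
      exact (norm_add_le _ _).trans (add_le_add (hlow x) le_rfl)
    have h4 : t / 2 ≤ ‖S (Rᶜ.indicator a) x‖ := by linarith
    refine ENNReal.ofReal_le_ofReal ?_
    gcongr
  refine (measure_mono hsub).trans ?_
  have hc : Continuous fun x : V => ‖S (Rᶜ.indicator a) x‖ ^ 2 := (S_continuous ha2).norm.pow 2
  have hch := mul_meas_ge_le_lintegral₀ (μ := volume.restrict cube)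
    (f := fun x : V => ENNReal.ofReal (‖S (Rᶜ.indicator a) x‖ ^ 2))
    (hc.measurable.ennreal_ofReal.aemeasurable) (ENNReal.ofReal ((t / 2) ^ 2))
  have hint : ∫⁻ x in cube, ENNReal.ofReal (‖S (Rᶜ.indicator a) x‖ ^ 2)
      = ∑' k, {k : K3 | A < en k}.indicator (fun k => ENNReal.ofReal (‖a k‖ ^ 2)) k := by
    rw [← ofReal_integral_eq_lintegral_ofReal (integrableOn_cube hc)
      (Eventually.of_forall fun _ => sq_nonneg _), integral_norm_sq ha2, n2_sq,
      ENNReal.ofReal_tsum_of_nonneg (fun _ => sq_nonneg _) (summable_sq ha2)]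
    refine tsum_congr fun k => ?_
    rw [hRc]
    by_cases hk : k ∈ {k : K3 | A < en k}
    · rw [indicator_of_mem hk, indicator_of_mem hk]
    · rw [indicator_of_notMem hk, indicator_of_notMem hk]
      simp
  rw [hint] at hch
  have hpos : 0 < (t / 2) ^ 2 := by positivity
  have h5 : ENNReal.ofReal (4 / t ^ 2) * ENNReal.ofReal ((t / 2) ^ 2) = 1 := by
    rw [← ENNReal.ofReal_mul (by positivity)]
    have : 4 / t ^ 2 * (t / 2) ^ 2 = 1 := by field_simp; norm_num
    rw [this, ENNReal.ofReal_one]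
  calc volume.restrict cube {x : V | ENNReal.ofReal ((t / 2) ^ 2)
        ≤ ENNReal.ofReal (‖S (Rᶜ.indicator a) x‖ ^ 2)}
      = ENNReal.ofReal (4 / t ^ 2) * (ENNReal.ofReal ((t / 2) ^ 2) *
        volume.restrict cube {x : V | ENNReal.ofReal ((t / 2) ^ 2)
        ≤ ENNReal.ofReal (‖S (Rᶜ.indicator a) x‖ ^ 2)}) := by
        rw [← mul_assoc, h5, one_mul]
    _ ≤ _ := by gcongr

theorem lint_pow {r L : ℝ} (hr : 2 < r) (hL : 0 ≤ L) :
    ∫⁻ t in Ioo 0 L, ENNReal.ofReal (t ^ (r - 3)) = ENNReal.ofReal (L ^ (r - 2) / (r - 2)) := by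
  have hi : IntervalIntegrable (fun t : ℝ => t ^ (r - 3)) volume 0 L :=
    intervalIntegral.intervalIntegrable_rpow' (by linarith)
  rw [intervalIntegrable_iff_integrableOn_Ioo_of_le hL] at hi
  rw [← ofReal_integral_eq_lintegral_ofReal hi ?_]
  · congr 1
    rw [← integral_Ioc_eq_integral_Ioo, ← intervalIntegral.integral_of_le hL,
      integral_rpow (Or.inl (by linarith)), Real.zero_rpow (by linarith)]
    ring_nf
  · filter_upwards [ae_restrict_mem measurableSet_Ioo] with t ht
    exact Real.rpow_nonneg ht.1.le _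

/-- **The fractional Sobolev inequality.** -/
theorem sob {s : ℝ} (hs0 : 0 < s) (hs1 : s < 1) : ∃ C : ℝ, 0 ≤ C ∧ ∀ a : K3 → ℂ, Rap a → a 0 = 0 →
    ∫⁻ x in cube, ENNReal.ofReal (‖S a x‖ ^ (6 / (3 - 2 * s)))
      ≤ ENNReal.ofReal (C * Hs s a ^ (6 / (3 - 2 * s))) := by
  set r : ℝ := 6 / (3 - 2 * s) with hr
  have hd : 0 < 3 - 2 * s := by linarith
  have hr2 : 2 < r := by
    rw [hr, lt_div_iff₀ hd]
    linarith
  have hr22 : r - 2 = 2 * s / (3 / 2 - s) := by
    rw [hr]
    have : (3 / 2 - s) ≠ 0 := by linarith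
    field_simp
    ring
  refine ⟨r * 4 / (r - 2) * (2 * √26) ^ (r - 2), by
    have : 0 < r - 2 := by linarith
    positivity, fun a ha h0 => ?_⟩
  have hMn := Hs_nonneg s a
  rcases hMn.eq_or_lt with hM | hM
  · have h1 : ∀ k, a k = 0 := by
      intro k
      rcases eq_or_ne k 0 with h | h
      · rw [h, h0]
      · have h2 : hs s a = 0 := by rw [← Hs_sq, ← hM]; simp
        have h3 : en k ^ (2 * s) * ‖a k‖ ^ 2 ≤ 0 := by
          rw [← h2]
          exact (hs_summable ha hs0.le (by linarith)).le_tsum k fun _ _ => hs_term_nonneg s a _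
        have h4 : 0 < en k ^ (2 * s) := Real.rpow_pos_of_pos (en_pos h) _
        have h5 : ‖a k‖ ^ 2 ≤ 0 := by
          by_contra hcon
          push Not at hcon
          have := mul_pos h4 hcon
          linarith
        have h6 : ‖a k‖ = 0 := by nlinarith [norm_nonneg (a k)]
        exact norm_eq_zero.1 h6
    have h2 : ∀ x, S a x = 0 := by
      intro x
      unfold S
      simp [h1]
    simp_rw [h2, norm_zero]
    rw [Real.zero_rpow (by linarith)]
    simp
  set M := Hs s a with hMdef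
  have hF : Measurable fun x : V => ‖S a x‖ := (S_continuous ha.summable).norm.measurable
  rw [lintegral_rpow_eq_lintegral_meas_lt_mul (volume.restrict cube)
    (Eventually.of_forall fun _ => norm_nonneg _) hF.aemeasurable (by linarith : 0 < r)]
  have hc26 : (0 : ℝ) < √26 := Real.sqrt_pos.2 (by norm_num)
  set Lam : K3 → ℝ := fun k => 2 * √26 * M * en k ^ (3 / 2 - s) with hLam
  have hLam0 : ∀ k, 0 ≤ Lam k := fun k => by
    have := en_rpow_nonneg (3 / 2 - s) k
    positivity
  have key : ∀ t ∈ Ioi (0 : ℝ), volume.restrict cube {x : V | t < ‖S a x‖}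
        * ENNReal.ofReal (t ^ (r - 1))
      ≤ ∑' k, ENNReal.ofReal (4 * ‖a k‖ ^ 2)
        * (Ioo 0 (Lam k)).indicator (fun t => ENNReal.ofReal (t ^ (r - 3))) t := by
    intro t ht
    have ht0 : 0 < t := ht
    set A : ℝ := (t / (2 * √26 * M)) ^ (3 / 2 - s)⁻¹ with hA
    have hq : 0 < t / (2 * √26 * M) := by positivity
    have hA0 : 0 < A := Real.rpow_pos_of_pos hq _
    have hA1 : A ^ (3 / 2 - s) = t / (2 * √26 * M) := by
      rw [hA, ← Real.rpow_mul hq.le, inv_mul_cancel₀ (by linarith), Real.rpow_one]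
    have h1 := meas_le ha h0 hs0.le hs1.le hA0 ht0 (by
      rw [hA1, ← hMdef]
      refine le_of_eq ?_
      field_simp)
    refine (mul_le_mul_left h1 _).trans ?_
    rw [mul_comm (ENNReal.ofReal (4 / t ^ 2)), mul_assoc, ← ENNReal.tsum_mul_right]
    refine ENNReal.tsum_le_tsum fun k => ?_
    by_cases hk : A < en k
    · have h2 : t < Lam k := by
        have h3 : A ^ (3 / 2 - s) < en k ^ (3 / 2 - s) :=
          Real.rpow_lt_rpow hA0.le hk (by linarith)
        rw [hA1, div_lt_iff₀ (by positivity)] at h3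
        simp only [hLam]
        linarith
      have hk' : k ∈ {k : K3 | A < en k} := hk
      have ht' : t ∈ Ioo 0 (Lam k) := ⟨ht0, h2⟩
      rw [indicator_of_mem hk', indicator_of_mem ht',
        ← ENNReal.ofReal_mul (by positivity), ← ENNReal.ofReal_mul (by positivity),
        ← ENNReal.ofReal_mul (by positivity)]
      refine ENNReal.ofReal_le_ofReal (le_of_eq ?_)
      have h4 : t ^ (r - 1) = t ^ (r - 3) * t ^ 2 := by
        rw [← Real.rpow_natCast, ← Real.rpow_add ht0]
        congr 1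
        push_cast
        ring
      rw [h4]
      field_simp
    · have hk' : k ∉ {k : K3 | A < en k} := hk
      rw [indicator_of_notMem hk', zero_mul]
      exact zero_le
  have h1 : ∫⁻ t in Ioi (0 : ℝ), volume.restrict cube {x : V | t < ‖S a x‖}
        * ENNReal.ofReal (t ^ (r - 1))
      ≤ ∑' k, ENNReal.ofReal (4 * ‖a k‖ ^ 2) * ENNReal.ofReal (Lam k ^ (r - 2) / (r - 2)) := by
    refine (setLIntegral_mono' measurableSet_Ioi key).trans ?_
    have hm : ∀ k, Measurable fun t : ℝ => (Ioo 0 (Lam k)).indicator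
        (fun t => ENNReal.ofReal (t ^ (r - 3))) t := fun k =>
      (measurable_id.pow_const _).ennreal_ofReal.indicator measurableSet_Ioo
    rw [lintegral_tsum fun k => ((hm k).const_mul _).aemeasurable]
    refine ENNReal.tsum_le_tsum fun k => ?_
    rw [lintegral_const_mul _ (hm k)]
    gcongr
    rw [← lint_pow hr2 (hLam0 k)]
    rw [← lintegral_indicator measurableSet_Ioi, ← lintegral_indicator measurableSet_Ioo]
    refine lintegral_mono fun t => ?_
    by_cases ht : t ∈ Ioi (0 : ℝ)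
    · rw [indicator_of_mem ht]
    · rw [indicator_of_notMem ht]
      exact zero_le
  have hM2 : ∀ k, Lam k ^ (r - 2) = (2 * √26) ^ (r - 2) * M ^ (r - 2) * en k ^ (2 * s) := by
    intro k
    simp only [hLam]
    rw [Real.mul_rpow (by positivity) (en_rpow_nonneg _ _), Real.mul_rpow (by positivity) hM.le,
      ← Real.rpow_mul (en_nonneg k)]
    congr 2
    rw [hr22]
    have : (3 / 2 - s) ≠ 0 := by linarith
    field_simp
  have hr0 : 0 < r - 2 := by linarith
  calc ENNReal.ofReal r * ∫⁻ t in Ioi (0 : ℝ), volume.restrict cube {x : V | t < ‖S a x‖}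
        * ENNReal.ofReal (t ^ (r - 1))
      ≤ ENNReal.ofReal r * ∑' k, ENNReal.ofReal (4 * ‖a k‖ ^ 2)
        * ENNReal.ofReal (Lam k ^ (r - 2) / (r - 2)) := by gcongr
    _ = ∑' k, ENNReal.ofReal (r * 4 / (r - 2) * (2 * √26) ^ (r - 2) * M ^ (r - 2)
        * (en k ^ (2 * s) * ‖a k‖ ^ 2)) := by
        rw [← ENNReal.tsum_mul_left]
        refine tsum_congr fun k => ?_
        rw [← ENNReal.ofReal_mul (by positivity), ← ENNReal.ofReal_mul (by linarith), hM2 k]
        congr 1
        ring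
    _ = ENNReal.ofReal (∑' k, r * 4 / (r - 2) * (2 * √26) ^ (r - 2) * M ^ (r - 2)
        * (en k ^ (2 * s) * ‖a k‖ ^ 2)) := by
        rw [ENNReal.ofReal_tsum_of_nonneg (fun k => ?_)
          ((hs_summable ha hs0.le (by linarith)).mul_left _)]
        have := hs_term_nonneg s a k
        have h3 : 0 < M ^ (r - 2) := Real.rpow_pos_of_pos hM _
        positivity
    _ = ENNReal.ofReal (r * 4 / (r - 2) * (2 * √26) ^ (r - 2) * M ^ r) := by
        rw [tsum_mul_left]
        congr 1
        have h4 : ∑' k, en k ^ (2 * s) * ‖a k‖ ^ 2 = M ^ 2 := by rw [hMdef, Hs_sq]; rfl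
        rw [h4]
        have h5 : M ^ r = M ^ (r - 2) * M ^ 2 := by
          rw [← Real.rpow_natCast, ← Real.rpow_add hM]
          congr 1
          push_cast
          ring
        rw [h5]
        ring

end Pool.Agent.TH300.HS
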